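import Pool.Agent.Helper64.Euler.Basic

set_option autoImplicit false

open Set Filter Topology Real MeasureTheory
open scoped ContDiff

namespace Pool.Agent.Helper64.Euler

/-- `f` is transported by the flow with coefficients `b`, `w` up to time `T` -/
structure Tr (f : ℝ → ℝ → ℝ → ℝ) (b w : ℝ → ℝ → ℝ) (T : ℝ) : Prop where
  cont : ContinuousOn (fun p : (ℝ × ℝ) × ℝ => f p.1.1 p.1.2 p.2) (univ ×ˢ Icc 0 T)
  diff : ∀ t, 0 ≤ t → t ≤ T → Differentiable ℝ (fun p : ℝ × ℝ => f p.1 p.2 t)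
  eqn : ∀ r θ t, 0 < r → 0 < t → t ≤ T → HasDerivAt (fun s => pol f r θ s)
    (- (2 * r * cos (2 * θ) * b r t) * deriv (fun ρ => pol f ρ θ t) r +
      sin (2 * θ) * (2 * b r t - w r t) * deriv (fun φ => pol f r φ t) θ) t

variable {f : ℝ → ℝ → ℝ → ℝ} {b w : ℝ → ℝ → ℝ} {T : ℝ}

lemma Tr.neg (h : Tr f b w T) : Tr (fun x y t => - f x y t) b w T where
  cont := h.cont.neg
  diff t h0 h1 := (h.diff t h0 h1).neg
  eqn r θ t hr ht hT := by
    have h1 := (h.eqn r θ t hr ht hT).neg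
    have e1 : deriv (fun ρ => pol (fun x y t => - f x y t) ρ θ t) r =
        - deriv (fun ρ => pol f ρ θ t) r := by
      unfold pol
      exact deriv.fun_neg
    have e2 : deriv (fun φ => pol (fun x y t => - f x y t) r φ t) θ =
        - deriv (fun φ => pol f r φ t) θ := by
      unfold pol
      exact deriv.fun_neg
    rw [e1, e2]
    refine h1.congr_deriv ?_
    ring

/-- comparison with a barrier -/
theorem barrier (hf : Tr f b w T) {K : Set (ℝ × ℝ)} (hK : IsCompact K)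
    (h00 : ((0, 0) : ℝ × ℝ) ∉ interior K)
    {G : ℝ × ℝ → ℝ → ℝ}
    (hG : ContinuousOn (fun q : (ℝ × ℝ) × ℝ => G q.1 q.2) (K ×ˢ Icc 0 T))
    (h0 : ∀ p ∈ K, f p.1 p.2 0 ≤ G p 0)
    (hb : ∀ p ∈ K, p ∉ interior K → ∀ t ∈ Icc 0 T, f p.1 p.2 t ≤ G p t)
    (hint : ∀ r θ t, 0 < r → (r * cos θ, r * sin θ) ∈ interior K → 0 < t → t ≤ T →
      G (r * cos θ, r * sin θ) t < f (r * cos θ) (r * sin θ) t →
      ∃ Gr Gθ Gt : ℝ, HasDerivAt (fun ρ => G (ρ * cos θ, ρ * sin θ) t) Gr r ∧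
        HasDerivAt (fun φ => G (r * cos φ, r * sin φ) t) Gθ θ ∧
        HasDerivAt (fun s => G (r * cos θ, r * sin θ) s) Gt t ∧
        - (2 * r * cos (2 * θ) * b r t) * Gr + sin (2 * θ) * (2 * b r t - w r t) * Gθ < Gt) :
    ∀ p ∈ K, ∀ t ∈ Icc 0 T, f p.1 p.2 t ≤ G p t := by
  have key := max_principle hK (T := T) (Φ := fun p t => f p.1 p.2 t - G p t) ?_ ?_ ?_ ?_
  · intro p hp t ht
    have := key p hp t ht
    linarith
  · exact (hf.cont.mono (by intro q hq; exact ⟨mem_univ _, hq.2⟩)).sub hG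
  · intro p hp
    have := h0 p hp
    linarith
  · intro p hp hpi t ht
    have := hb p hp hpi t ht
    linarith
  · rintro ⟨x, y⟩ hp t ht hmax hpos
    simp only at hpos
    have hne : (x, y) ≠ ((0, 0) : ℝ × ℝ) := by
      intro h
      rw [h] at hp
      exact h00 hp
    obtain ⟨r, θ, hr, rfl, rfl⟩ := exists_polar x y hne
    obtain ⟨Gr, Gθ, Gt, h1, h2, h3, h4⟩ := hint r θ t hr hp ht.1 ht.2 (by linarith)
    have hd := hf.diff t ht.1.le ht.2
    -- critical in r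
    have hr1 : HasDerivAt (fun ρ => f (ρ * cos θ) (ρ * sin θ) t - G (ρ * cos θ, ρ * sin θ) t)
        (deriv (fun ρ => pol f ρ θ t) r - Gr) r := (diff_polR hd θ r).hasDerivAt.sub h1
    have hr2 : IsLocalMax (fun ρ => f (ρ * cos θ) (ρ * sin θ) t -
        G (ρ * cos θ, ρ * sin θ) t) r := by
      have hc : ContinuousAt (fun ρ : ℝ => (ρ * cos θ, ρ * sin θ)) r := by fun_prop
      exact hc.tendsto.eventually hmax
    have hr3 := hr2.hasDerivAt_eq_zero hr1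
    have ht1 : HasDerivAt (fun φ => f (r * cos φ) (r * sin φ) t - G (r * cos φ, r * sin φ) t)
        (deriv (fun φ => pol f r φ t) θ - Gθ) θ := (diff_polT hd r θ).hasDerivAt.sub h2
    have ht2 : IsLocalMax (fun φ => f (r * cos φ) (r * sin φ) t -
        G (r * cos φ, r * sin φ) t) θ := by
      have hc : ContinuousAt (fun φ : ℝ => (r * cos φ, r * sin φ)) θ := by fun_prop
      exact hc.tendsto.eventually hmax
    have ht3 := ht2.hasDerivAt_eq_zero ht1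
    have e1 : deriv (fun ρ => pol f ρ θ t) r = Gr := by linarith
    have e2 : deriv (fun φ => pol f r φ t) θ = Gθ := by linarith
    have h5 := hf.eqn r θ t hr ht.1 ht.2
    rw [e1, e2] at h5
    exact ⟨_, by linarith, h5.sub h3⟩

/-- solutions are transported -/
lemma IsSolution.tr {om : ℝ → ℝ → ℝ → ℝ} (h : IsSolution om) (ho : OddY om) {R : ℝ}
    (hR : 0 < R) (hs : ∀ t ∈ Icc 0 T, SuppIn om R t) :
    Tr om (br om R) (wr om) T where
  cont := h.cont.mono (prod_mono_right Icc_subset_Ici_self)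
  diff t h0 _ := h.diffSlice h0
  eqn r θ t hr ht hT := by
    have h1 := (h.diffTime (r * cos θ) (r * sin θ) ht).hasDerivAt
    refine h1.congr_deriv ?_
    exact eqn' h ho hR (hs t ⟨ht.le, hT⟩) ht hr θ

/-- the half disc -/
def HD (R : ℝ) : Set (ℝ × ℝ) := {p | 0 ≤ p.2 ∧ p.1 ^ 2 + p.2 ^ 2 ≤ R ^ 2}

/-- the quarter disc -/
def QD (R : ℝ) : Set (ℝ × ℝ) := {p | 0 ≤ p.1 ∧ 0 ≤ p.2 ∧ p.1 ^ 2 + p.2 ^ 2 ≤ R ^ 2}

lemma bdd_aux (R : ℝ) : Bornology.IsBounded {p : ℝ × ℝ | p.1 ^ 2 + p.2 ^ 2 ≤ R ^ 2} := by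
  rw [isBounded_iff_forall_norm_le]
  refine ⟨|R|, fun p hp => ?_⟩
  rw [Prod.norm_def, max_le_iff]
  have hp' : p.1 ^ 2 + p.2 ^ 2 ≤ R ^ 2 := hp
  constructor
  · rw [norm_eq_abs]; exact sq_le_sq.mp (by nlinarith [sq_nonneg p.2])
  · rw [norm_eq_abs]; exact sq_le_sq.mp (by nlinarith [sq_nonneg p.1])

lemma isClosed_aux (R : ℝ) : IsClosed {p : ℝ × ℝ | p.1 ^ 2 + p.2 ^ 2 ≤ R ^ 2} :=
  isClosed_le (f := fun p : ℝ × ℝ => p.1 ^ 2 + p.2 ^ 2) (by fun_prop) continuous_const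

lemma isCompact_HD (R : ℝ) : IsCompact (HD R) := by
  apply Metric.isCompact_of_isClosed_isBounded
  · apply IsClosed.inter
    · exact isClosed_le continuous_const continuous_snd
    · exact isClosed_aux R
  · exact (bdd_aux R).subset fun p hp => hp.2

lemma isCompact_QD (R : ℝ) : IsCompact (QD R) := by
  apply Metric.isCompact_of_isClosed_isBounded
  · apply IsClosed.inter
    · exact isClosed_le continuous_const continuous_fst
    · apply IsClosed.inter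
      · exact isClosed_le continuous_const continuous_snd
      · exact isClosed_aux R
  · exact (bdd_aux R).subset fun p hp => hp.2.2

lemma HD_boundary {R : ℝ} {p : ℝ × ℝ} (hp : p ∈ HD R) (hn : p ∉ interior (HD R)) :
    p.2 = 0 ∨ p.1 ^ 2 + p.2 ^ 2 = R ^ 2 := by
  by_contra hc
  push Not at hc
  apply hn
  rw [mem_interior]
  refine ⟨{q | 0 < q.2} ∩ {q | q.1 ^ 2 + q.2 ^ 2 < R ^ 2}, ?_, ?_, ?_⟩
  · intro q hq; exact ⟨le_of_lt hq.1, le_of_lt hq.2⟩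
  · exact (isOpen_lt continuous_const continuous_snd).inter
      (isOpen_lt (by fun_prop) continuous_const)
  · exact ⟨lt_of_le_of_ne hp.1 (Ne.symm hc.1), lt_of_le_of_ne hp.2 hc.2⟩

lemma QD_boundary {R : ℝ} {p : ℝ × ℝ} (hp : p ∈ QD R) (hn : p ∉ interior (QD R)) :
    p.1 = 0 ∨ p.2 = 0 ∨ p.1 ^ 2 + p.2 ^ 2 = R ^ 2 := by
  by_contra hc
  push Not at hc
  apply hn
  rw [mem_interior]
  refine ⟨{q | 0 < q.1} ∩ ({q | 0 < q.2} ∩ {q | q.1 ^ 2 + q.2 ^ 2 < R ^ 2}), ?_, ?_, ?_⟩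
  · intro q hq; exact ⟨le_of_lt hq.1, le_of_lt hq.2.1, le_of_lt hq.2.2⟩
  · exact (isOpen_lt continuous_const continuous_fst).inter
      ((isOpen_lt continuous_const continuous_snd).inter
      (isOpen_lt (by fun_prop) continuous_const))
  · exact ⟨lt_of_le_of_ne hp.1 (Ne.symm hc.1), lt_of_le_of_ne hp.2.1 (Ne.symm hc.2.1),
      lt_of_le_of_ne hp.2.2 hc.2.2⟩

lemma HD_interior {R : ℝ} {p : ℝ × ℝ} (hp : p ∈ interior (HD R)) : 0 < p.2 := by
  have h1 : p ∈ interior {q : ℝ × ℝ | 0 ≤ q.2} := interior_mono (fun (q : ℝ × ℝ) (hq : q ∈ HD R) => hq.1) hp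
  have h2 : {q : ℝ × ℝ | 0 ≤ q.2} = univ ×ˢ Ici 0 := by ext; simp
  rw [h2, interior_prod_eq, interior_Ici] at h1
  exact h1.2

lemma QD_interior {R : ℝ} {p : ℝ × ℝ} (hp : p ∈ interior (QD R)) : 0 < p.1 ∧ 0 < p.2 := by
  have h0 : QD R ⊆ {q : ℝ × ℝ | 0 ≤ q.1 ∧ 0 ≤ q.2} := fun q hq => ⟨hq.1, hq.2.1⟩
  have h1 : p ∈ interior {q : ℝ × ℝ | 0 ≤ q.1 ∧ 0 ≤ q.2} := interior_mono h0 hp
  have h2 : {q : ℝ × ℝ | 0 ≤ q.1 ∧ 0 ≤ q.2} = Ici 0 ×ˢ Ici 0 := by
    ext q; simp only [mem_ofPred_eq, mem_prod, mem_Ici]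
  rw [h2, interior_prod_eq, interior_Ici] at h1
  exact ⟨h1.1, h1.2⟩

lemma zero_notMem_HD (R : ℝ) : ((0, 0) : ℝ × ℝ) ∉ interior (HD R) := fun h =>
  lt_irrefl _ (HD_interior h)

lemma zero_notMem_QD (R : ℝ) : ((0, 0) : ℝ × ℝ) ∉ interior (QD R) := fun h =>
  lt_irrefl _ (QD_interior h).1

/-- by continuity the solution vanishes on the bounding circle -/
lemma SuppIn.circle {om : ℝ → ℝ → ℝ → ℝ} {R t : ℝ} (h : SuppIn om R t)
    (hc : Continuous (fun p : ℝ × ℝ => om p.1 p.2 t)) (hR : 0 < R) {x y : ℝ}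
    (hxy : x ^ 2 + y ^ 2 = R ^ 2) : om x y t = 0 := by
  have h1 : Tendsto (fun l : ℝ => om (l * x) (l * y) t) (𝓝[>] 1) (𝓝 (om (1 * x) (1 * y) t)) := by
    have : Continuous (fun l : ℝ => om (l * x) (l * y) t) :=
      hc.comp (f := fun l : ℝ => (l * x, l * y)) (by fun_prop)
    exact (this.tendsto 1).mono_left nhdsWithin_le_nhds
  have h2 : ∀ᶠ l in 𝓝[>] (1 : ℝ), om (l * x) (l * y) t = 0 := by
    filter_upwards [self_mem_nhdsWithin] with l hl
    have hl' : (1 : ℝ) < l := hl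
    apply h
    have : (l * x) ^ 2 + (l * y) ^ 2 = l ^ 2 * R ^ 2 := by rw [← hxy]; ring
    rw [this]
    have h5 : 1 < l ^ 2 := by nlinarith
    nlinarith [pow_pos hR 2]
  have h3 := tendsto_nhds_unique (h1.congr' h2) tendsto_const_nhds
  simpa using h3

end Pool.Agent.Helper64.Euler
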