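import Mathlib

set_option autoImplicit false

open Set Filter Topology

namespace Pool.Agent.Helper64.Euler

/-- maximum principle on a compact set -/
theorem max_principle {K : Set (ℝ × ℝ)} (hK : IsCompact K) {T : ℝ} {Φ : ℝ × ℝ → ℝ → ℝ}
    (hcont : ContinuousOn (fun q : (ℝ × ℝ) × ℝ => Φ q.1 q.2) (K ×ˢ Icc 0 T))
    (h0 : ∀ p ∈ K, Φ p 0 ≤ 0)
    (hb : ∀ p ∈ K, p ∉ interior K → ∀ t ∈ Icc 0 T, Φ p t ≤ 0)
    (hint : ∀ p ∈ interior K, ∀ t ∈ Ioc 0 T, IsLocalMax (fun q => Φ q t) p → 0 < Φ p t →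
      ∃ d < 0, HasDerivAt (fun s => Φ p s) d t) :
    ∀ p ∈ K, ∀ t ∈ Icc 0 T, Φ p t ≤ 0 := by
  intro p hp t ht
  by_contra hneg
  push Not at hneg
  have hne : (K ×ˢ Icc 0 T).Nonempty := ⟨(p, t), hp, ht⟩
  obtain ⟨⟨q, s⟩, ⟨hq, hs⟩, hmax⟩ := (hK.prod isCompact_Icc).exists_isMaxOn hne hcont
  simp only at hq hs
  have hpos : 0 < Φ q s := lt_of_lt_of_le hneg (hmax (show (p, t) ∈ K ×ˢ Icc 0 T from ⟨hp, ht⟩))
  have hs0 : 0 < s := by
    rcases hs.1.lt_or_eq with h | h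
    · exact h
    · exfalso
      have := h0 q hq
      rw [h] at this
      linarith
  have hqi : q ∈ interior K := by
    by_contra hc
    have := hb q hq hc s hs
    linarith
  have hloc : IsLocalMax (fun q' => Φ q' s) q := by
    filter_upwards [mem_interior_iff_mem_nhds.mp hqi] with q' hq'
    exact hmax (show (q', s) ∈ K ×ˢ Icc 0 T from ⟨hq', hs⟩)
  obtain ⟨d, hd, hder⟩ := hint q hqi s ⟨hs0, hs.2⟩ hloc hpos
  have h1 := hasDerivAt_iff_tendsto_slope.mp hder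
  have h2 : ∀ᶠ r in 𝓝[≠] s, slope (fun s => Φ q s) s r < 0 := h1.eventually_lt_const hd
  have h3 : ∀ᶠ r in 𝓝[<] s, slope (fun s => Φ q s) s r < 0 :=
    h2.filter_mono (nhdsWithin_mono _ (fun x hx => ne_of_lt hx))
  have h4 : ∀ᶠ r in 𝓝[<] s, 0 < r := by
    have : ∀ᶠ r in 𝓝 s, 0 < r := eventually_gt_nhds hs0
    exact this.filter_mono nhdsWithin_le_nhds
  have h5 : ∀ᶠ r in 𝓝[<] s, r < s := eventually_mem_nhdsWithin
  obtain ⟨r, hr1, hr2, hr3⟩ := (h3.and (h4.and h5)).exists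
  have h6 : Φ q r ≤ Φ q s := hmax (show (q, r) ∈ K ×ˢ Icc 0 T from ⟨hq, hr2.le, hr3.le.trans hs.2⟩)
  rw [slope_def_field] at hr1
  have h7 : 0 ≤ (Φ q r - Φ q s) / (r - s) := div_nonneg_of_nonpos (by linarith) (by linarith)
  linarith

end Pool.Agent.Helper64.Euler
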