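import Pool.Agent.Helper64.Euler.Defs
import Pool.Agent.Helper64.Euler.MaxP

set_option autoImplicit false

open Set Filter Topology Real MeasureTheory
open scoped ContDiff

namespace Pool.Agent.Helper64.Euler

variable {om : ℝ → ℝ → ℝ → ℝ}

lemma IsSolution.slice (h : IsSolution om) {t : ℝ} (ht : 0 ≤ t) :
    ContDiff ℝ ∞ (fun p : ℝ × ℝ => om p.1 p.2 t) := by
  have h1 : ContDiffOn ℝ ∞ (fun p : ℝ × ℝ => om p.1 p.2 t) univ := by
    have := h.smooth.comp (g := fun p : (ℝ × ℝ) × ℝ => om p.1.1 p.1.2 p.2)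
      (f := fun p : ℝ × ℝ => (p, t)) (s := univ) (by fun_prop)
      (fun p _ => ⟨mem_univ _, ht⟩)
    exact this
  exact contDiffOn_univ.mp h1

lemma IsSolution.contSlice (h : IsSolution om) {t : ℝ} (ht : 0 ≤ t) :
    Continuous (fun p : ℝ × ℝ => om p.1 p.2 t) := (h.slice ht).continuous

lemma IsSolution.diffSlice (h : IsSolution om) {t : ℝ} (ht : 0 ≤ t) :
    Differentiable ℝ (fun p : ℝ × ℝ => om p.1 p.2 t) := (h.slice ht).differentiable (by simp)

lemma IsSolution.cont (h : IsSolution om) :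
    ContinuousOn (fun p : (ℝ × ℝ) × ℝ => om p.1.1 p.1.2 p.2) (univ ×ˢ Ici 0) :=
  h.smooth.continuousOn

lemma IsSolution.diffTime (h : IsSolution om) (x y : ℝ) {t : ℝ} (ht : 0 < t) :
    DifferentiableAt ℝ (fun s => om x y s) t := by
  have h1 : DifferentiableAt ℝ (fun p : (ℝ × ℝ) × ℝ => om p.1.1 p.1.2 p.2) ((x, y), t) := by
    have h2 : (univ ×ˢ Ici (0 : ℝ) : Set ((ℝ × ℝ) × ℝ)) ∈ 𝓝 ((x, y), t) :=
      prod_mem_nhds univ_mem (Ici_mem_nhds ht)
    exact (h.smooth.contDiffAt h2).differentiableAt (by simp)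
  have h3 : DifferentiableAt ℝ (fun s : ℝ => ((x, y), s)) t := by fun_prop
  exact DifferentiableAt.comp (g := fun p : (ℝ × ℝ) × ℝ => om p.1.1 p.1.2 p.2) t h1 h3

lemma diff_polR {f : ℝ × ℝ → ℝ} (h : Differentiable ℝ f) (θ r : ℝ) :
    DifferentiableAt ℝ (fun ρ => f (ρ * cos θ, ρ * sin θ)) r := by
  have h3 : DifferentiableAt ℝ (fun ρ : ℝ => (ρ * cos θ, ρ * sin θ)) r := by fun_prop
  exact DifferentiableAt.comp (g := f) r (h _) h3

lemma diff_polT {f : ℝ × ℝ → ℝ} (h : Differentiable ℝ f) (r θ : ℝ) :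
    DifferentiableAt ℝ (fun φ => f (r * cos φ, r * sin φ)) θ := by
  have h3 : DifferentiableAt ℝ (fun φ : ℝ => (r * cos φ, r * sin φ)) θ := by fun_prop
  exact DifferentiableAt.comp (g := f) θ (h _) h3

/-- polar coordinates -/
lemma exists_polar (x y : ℝ) (h : (x, y) ≠ ((0, 0) : ℝ × ℝ)) :
    ∃ r θ : ℝ, 0 < r ∧ x = r * cos θ ∧ y = r * sin θ := by
  refine ⟨‖(⟨x, y⟩ : ℂ)‖, Complex.arg ⟨x, y⟩, ?_, ?_, ?_⟩
  · rw [norm_pos_iff]
    intro h0
    apply h
    have h1 := congrArg Complex.re h0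
    have h2 := congrArg Complex.im h0
    simp at h1 h2
    simp [h1, h2]
  · exact (Complex.norm_mul_cos_arg ⟨x, y⟩).symm
  · exact (Complex.norm_mul_sin_arg ⟨x, y⟩).symm

/-- the amplitude of the second mode for data odd in `y` -/
noncomputable def wr (om : ℝ → ℝ → ℝ → ℝ) (ρ t : ℝ) : ℝ :=
  1 / π * ∫ φ in (0 : ℝ)..(2 * π), pol om ρ φ t * sin (2 * φ)

/-- oddness in `y` -/
def OddY (om : ℝ → ℝ → ℝ → ℝ) : Prop := ∀ x y t, 0 ≤ t → om x (-y) t = - om x y t

/-- the support at time `t` lies in the closed disc of radius `R` -/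
def SuppIn (om : ℝ → ℝ → ℝ → ℝ) (R t : ℝ) : Prop := ∀ x y, R ^ 2 < x ^ 2 + y ^ 2 → om x y t = 0

lemma cosmode (ho : OddY om) (ρ : ℝ) {t : ℝ} (ht : 0 ≤ t) :
    ∫ φ in (0 : ℝ)..(2 * π), pol om ρ φ t * cos (2 * φ) = 0 := by
  have h1 : ∫ φ in (0 : ℝ)..(2 * π), pol om ρ (2 * π - φ) t * cos (2 * (2 * π - φ)) =
      ∫ φ in (0 : ℝ)..(2 * π), pol om ρ φ t * cos (2 * φ) := by
    rw [intervalIntegral.integral_comp_sub_left (fun φ => pol om ρ φ t * cos (2 * φ)) (2 * π)]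
    simp
  have h2 : ∀ φ : ℝ, pol om ρ (2 * π - φ) t * cos (2 * (2 * π - φ)) =
      - (pol om ρ φ t * cos (2 * φ)) := by
    intro φ
    have e1 : cos (2 * π - φ) = cos φ := by rw [cos_two_pi_sub]
    have e2 : sin (2 * π - φ) = - sin φ := by rw [sin_two_pi_sub]
    have e3 : cos (2 * (2 * π - φ)) = cos (2 * φ) := by
      have : 2 * (2 * π - φ) = - (2 * φ) + 2 * π + 2 * π := by ring
      rw [this, cos_add_two_pi, cos_add_two_pi, cos_neg]
    unfold pol
    rw [e1, e2, e3, mul_neg, ho _ _ _ ht]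
    ring
  have h3 : ∫ φ in (0 : ℝ)..(2 * π), pol om ρ (2 * π - φ) t * cos (2 * (2 * π - φ)) =
      - ∫ φ in (0 : ℝ)..(2 * π), pol om ρ φ t * cos (2 * φ) := by
    rw [← intervalIntegral.integral_neg]
    exact intervalIntegral.integral_congr fun φ _ => h2 φ
  linarith

lemma contPol (h : IsSolution om) {t : ℝ} (ht : 0 ≤ t) :
    Continuous (fun q : ℝ × ℝ => pol om q.1 q.2 t) := by
  unfold pol
  exact (h.contSlice ht).comp (f := fun q : ℝ × ℝ => (q.1 * cos q.2, q.1 * sin q.2)) (by fun_prop)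

lemma P2_eq (h : IsSolution om) (ho : OddY om) (ρ θ : ℝ) {t : ℝ} (ht : 0 ≤ t) :
    P2 om ρ θ t = sin (2 * θ) * wr om ρ t := by
  have hc : Continuous (fun φ : ℝ => pol om ρ φ t) :=
    (contPol h ht).comp (f := fun φ : ℝ => (ρ, φ)) (by fun_prop)
  unfold P2 wr
  have h1 : ∫ φ in (0 : ℝ)..(2 * π), pol om ρ φ t * cos (2 * (θ - φ)) =
      cos (2 * θ) * (∫ φ in (0 : ℝ)..(2 * π), pol om ρ φ t * cos (2 * φ)) +
      sin (2 * θ) * (∫ φ in (0 : ℝ)..(2 * π), pol om ρ φ t * sin (2 * φ)) := by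
    rw [← intervalIntegral.integral_const_mul, ← intervalIntegral.integral_const_mul,
      ← intervalIntegral.integral_add]
    · refine intervalIntegral.integral_congr fun φ _ => ?_
      rw [mul_sub, cos_sub]
      ring
    · exact (by fun_prop : Continuous fun φ : ℝ =>
        cos (2 * θ) * (pol om ρ φ t * cos (2 * φ))).intervalIntegrable _ _
    · exact (by fun_prop : Continuous fun φ : ℝ =>
        sin (2 * θ) * (pol om ρ φ t * sin (2 * φ))).intervalIntegrable _ _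
  rw [h1, cosmode ho ρ ht]
  ring

lemma cont_wr (h : IsSolution om) {t : ℝ} (ht : 0 ≤ t) : Continuous (fun ρ => wr om ρ t) := by
  unfold wr
  have hc := contPol h ht
  have : Continuous (fun ρ : ℝ => ∫ φ in (0 : ℝ)..(2 * π), pol om ρ φ t * sin (2 * φ)) := by
    apply intervalIntegral.continuous_parametric_intervalIntegral_of_continuous'
    simp only [Function.uncurry_def]
    exact hc.mul (by fun_prop)
  exact continuous_const.mul this

lemma wr_zero {R t : ℝ} (hs : SuppIn om R t) {ρ : ℝ} (hρ : R ^ 2 < ρ ^ 2) : wr om ρ t = 0 := by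
  unfold wr
  have : ∀ φ, pol om ρ φ t * sin (2 * φ) = 0 := by
    intro φ
    unfold pol
    rw [hs _ _ (by nlinarith [sin_sq_add_cos_sq φ]), zero_mul]
  simp [this]

lemma wr_le {M t : ℝ} (hM : ∀ x y, |om x y t| ≤ M) (ρ : ℝ) : |wr om ρ t| ≤ 2 * M := by
  unfold wr
  have h1 : ‖∫ φ in (0 : ℝ)..(2 * π), pol om ρ φ t * sin (2 * φ)‖ ≤ M * |2 * π - 0| := by
    apply intervalIntegral.norm_integral_le_of_norm_le_const
    intro φ _
    rw [norm_mul, norm_eq_abs, norm_eq_abs]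
    have h0 : 0 ≤ M := (abs_nonneg _).trans (hM 0 0)
    calc |pol om ρ φ t| * |sin (2 * φ)| ≤ M * 1 :=
        mul_le_mul (hM _ _) (abs_sin_le_one _) (abs_nonneg _) h0
      _ = M := mul_one M
  rw [abs_mul, abs_of_pos (by positivity : (0 : ℝ) < 1 / π)]
  rw [norm_eq_abs, sub_zero, abs_of_pos (by positivity : (0 : ℝ) < 2 * π)] at h1
  calc 1 / π * |∫ φ in (0 : ℝ)..(2 * π), pol om ρ φ t * sin (2 * φ)| ≤ 1 / π * (M * (2 * π)) :=
        mul_le_mul_of_nonneg_left h1 (by positivity)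
    _ = 2 * M := by field_simp

/-- the strain -/
noncomputable def br (om : ℝ → ℝ → ℝ → ℝ) (R r t : ℝ) : ℝ := ∫ ρ in r..R, wr om ρ t / ρ

lemma psi_eq (h : IsSolution om) (ho : OddY om) {R t : ℝ} (hR : 0 < R) (hs : SuppIn om R t)
    (ht : 0 ≤ t) {r : ℝ} (hr : 0 < r) (θ : ℝ) :
    psi om r θ t = r ^ 2 * (sin (2 * θ) * br om R r t) := by
  have hP : ∀ ρ, P2 om ρ θ t / ρ = sin (2 * θ) * (wr om ρ t / ρ) := fun ρ => by
    rw [P2_eq h ho ρ θ ht]; ring
  unfold psi br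
  simp only [hP]
  congr 1
  rw [MeasureTheory.integral_const_mul]
  congr 1
  have hz : ∀ ρ, R < ρ → wr om ρ t / ρ = 0 := fun ρ hρ => by
    rw [wr_zero hs (by nlinarith), zero_div]
  rcases le_or_gt r R with hle | hgt
  · have hcont : ContinuousOn (fun ρ => wr om ρ t / ρ) (Icc r R) := by
      apply ((cont_wr h ht).continuousOn).div continuousOn_id
      intro x hx
      exact (lt_of_lt_of_le hr hx.1).ne'
    rw [← Ioc_union_Ioi_eq_Ioi hle, setIntegral_union (Ioc_disjoint_Ioi le_rfl) measurableSet_Ioi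
      ((hcont.integrableOn_Icc).mono_set Ioc_subset_Icc_self), ← intervalIntegral.integral_of_le hle]
    · have : ∫ ρ in Ioi R, wr om ρ t / ρ = 0 := by
        rw [setIntegral_congr_fun measurableSet_Ioi (g := fun _ => (0 : ℝ)) (fun ρ hρ => hz ρ hρ)]
        simp
      rw [this, add_zero]
    · have : IntegrableOn (fun _ : ℝ => (0 : ℝ)) (Ioi R) := integrableOn_zero
      exact this.congr_fun (fun ρ hρ => (hz ρ hρ).symm) measurableSet_Ioi
  · have h1 : ∫ ρ in Ioi r, wr om ρ t / ρ = 0 := by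
      rw [setIntegral_congr_fun measurableSet_Ioi (g := fun _ => (0 : ℝ))
        (fun ρ hρ => hz ρ (hgt.trans hρ))]
      simp
    rw [h1, intervalIntegral.integral_symm, intervalIntegral.integral_of_le hgt.le]
    rw [setIntegral_congr_fun measurableSet_Ioc (g := fun _ => (0 : ℝ)) (fun ρ hρ => hz ρ hρ.1)]
    simp

lemma hasDerivAt_br (h : IsSolution om) {R t : ℝ} (hR : 0 < R) (ht : 0 ≤ t) {r : ℝ} (hr : 0 < r) :
    HasDerivAt (fun r => br om R r t) (-(wr om r t / r)) r := by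
  unfold br
  have hcont : ContinuousOn (fun ρ => wr om ρ t / ρ) (Ioi 0) := by
    apply ((cont_wr h ht).continuousOn).div continuousOn_id
    intro x hx
    exact (ne_of_gt hx)
  apply intervalIntegral.integral_hasDerivAt_left
  · apply ContinuousOn.intervalIntegrable
    apply hcont.mono
    intro x hx
    rw [mem_uIcc] at hx
    rcases hx with hx | hx
    · exact lt_of_lt_of_le hr hx.1
    · exact lt_of_lt_of_le hR hx.1
  · exact hcont.stronglyMeasurableAtFilter isOpen_Ioi r hr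
  · exact hcont.continuousAt (Ioi_mem_nhds hr)

lemma hasDerivAt_psi_r (h : IsSolution om) (ho : OddY om) {R t : ℝ} (hR : 0 < R)
    (hs : SuppIn om R t) (ht : 0 ≤ t) {r : ℝ} (hr : 0 < r) (θ : ℝ) :
    HasDerivAt (fun ρ => psi om ρ θ t) (sin (2 * θ) * r * (2 * br om R r t - wr om r t)) r := by
  have h1 : HasDerivAt (fun ρ => ρ ^ 2 * (sin (2 * θ) * br om R ρ t))
      (2 * r * (sin (2 * θ) * br om R r t) + r ^ 2 * (sin (2 * θ) * -(wr om r t / r))) r := by
    have e1 : HasDerivAt (fun ρ : ℝ => ρ ^ 2) (2 * r) r := by simpa using hasDerivAt_pow 2 r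
    exact e1.mul ((hasDerivAt_br h hR ht hr).const_mul (sin (2 * θ)))
  have h2 : (fun ρ => psi om ρ θ t) =ᶠ[𝓝 r] (fun ρ => ρ ^ 2 * (sin (2 * θ) * br om R ρ t)) := by
    filter_upwards [Ioi_mem_nhds hr] with ρ hρ
    exact psi_eq h ho hR hs ht hρ θ
  refine (h1.congr_of_eventuallyEq h2).congr_deriv ?_
  field_simp
  ring

lemma hasDerivAt_psi_t (h : IsSolution om) (ho : OddY om) {R t : ℝ} (hR : 0 < R)
    (hs : SuppIn om R t) (ht : 0 ≤ t) {r : ℝ} (hr : 0 < r) (θ : ℝ) :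
    HasDerivAt (fun φ => psi om r φ t) (2 * r ^ 2 * cos (2 * θ) * br om R r t) θ := by
  have h1 : HasDerivAt (fun φ => r ^ 2 * (sin (2 * φ) * br om R r t))
      (r ^ 2 * (cos (2 * θ) * (2 * 1) * br om R r t)) θ := by
    have e1 : HasDerivAt (fun φ : ℝ => sin (2 * φ)) (cos (2 * θ) * (2 * 1)) θ :=
      (hasDerivAt_sin (2 * θ)).comp θ ((hasDerivAt_id θ).const_mul 2)
    exact (e1.mul_const _).const_mul _
  have h2 : (fun φ => psi om r φ t) = (fun φ => r ^ 2 * (sin (2 * φ) * br om R r t)) := by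
    funext φ
    exact psi_eq h ho hR hs ht hr φ
  rw [h2]
  refine h1.congr_deriv ?_
  ring

/-- the equation in explicit form -/
lemma eqn' (h : IsSolution om) (ho : OddY om) {R t : ℝ} (hR : 0 < R)
    (hs : SuppIn om R t) (ht : 0 < t) {r : ℝ} (hr : 0 < r) (θ : ℝ) :
    deriv (fun s => pol om r θ s) t =
      - (2 * r * cos (2 * θ) * br om R r t) * deriv (fun ρ => pol om ρ θ t) r +
      sin (2 * θ) * (2 * br om R r t - wr om r t) * deriv (fun φ => pol om r φ t) θ := by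
  have h1 := h.eqn r θ t hr ht
  rw [(hasDerivAt_psi_r h ho hR hs ht.le hr θ).deriv,
    (hasDerivAt_psi_t h ho hR hs ht.le hr θ).deriv] at h1
  have hr' : r ≠ 0 := hr.ne'
  field_simp at h1
  linarith

end Pool.Agent.Helper64.Euler
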