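import Pool.Agent.Helper64.Euler.Estimates

set_option autoImplicit false

open Set Filter Topology Real MeasureTheory
open scoped ContDiff

namespace Pool.Agent.Helper64.Euler

variable {om : ℝ → ℝ → ℝ → ℝ} {R M T K : ℝ}

lemma ev_oddX (x y t : ℝ) : ev om (-x) y t = - ev om x y t := by
  unfold ev; rw [neg_neg]; ring

lemma ev_oddY (ho : OddY om) (x y : ℝ) {t : ℝ} (ht : 0 ≤ t) :
    ev om x (-y) t = - ev om x y t := by
  unfold ev; rw [ho _ _ _ ht, ho _ _ _ ht]; ring

theorem ev_bound (h : IsSolution om) (ho : OddY om) (hR : 0 < R)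
    (hs : ∀ t ∈ Icc 0 T, SuppIn om R t) (hM : ∀ x y, ∀ t ∈ Icc 0 T, |om x y t| ≤ M) (hK : 0 < K)
    (h0 : ∀ x y, |ev om x y 0| ≤ K * |x * y|) :
    ∀ x y, ∀ t ∈ Icc 0 T, |ev om x y t| ≤ K * |x * y| * exp ((4 * M + 1) * t) := by
  rcases lt_or_ge T 0 with hT | hT
  · intro x y t ht
    exact absurd (ht.1.trans ht.2) (not_le.mpr hT)
  have hM0 : 0 ≤ M := (abs_nonneg _).trans (hM 0 0 0 ⟨le_rfl, hT⟩)
  -- a coefficient bounded for all times
  set w' : ℝ → ℝ → ℝ := fun r t => if t ∈ Icc 0 T then wr om r t else 0 with hw'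
  have htr0 := (h.tr ho hR hs).ev
  have htr : Tr (ev om) (br om R) w' T := by
    refine ⟨htr0.cont, htr0.diff, fun r θ t hr ht hT' => ?_⟩
    have := htr0.eqn r θ t hr ht hT'
    have e : w' r t = wr om r t := by rw [hw']; simp [ht.le, hT']
    rwa [e]
  have hw : ∀ r t, |w' r t| ≤ 2 * M := by
    intro r t
    rw [hw']
    simp only
    split_ifs with hc
    · exact wr_le (fun x y => hM x y t hc) r
    · rw [abs_zero]; linarith
  have hz : ∀ x y t, 0 ≤ t → t ≤ T → x ^ 2 + y ^ 2 = R ^ 2 → ev om x y t = 0 := by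
    intro x y t h1 h2 h3
    unfold ev
    rw [(hs t ⟨h1, h2⟩).circle (h.contSlice h1) hR h3,
      (hs t ⟨h1, h2⟩).circle (h.contSlice h1) hR (by rw [neg_sq]; exact h3)]
    simp
  have hx0 : ∀ y t, 0 ≤ t → ev om 0 y t = 0 := by intro y t _; unfold ev; simp
  have hy0 : ∀ x t, 0 ≤ t → ev om x 0 t = 0 := by
    intro x t ht; unfold ev; rw [ho.zero _ ht, ho.zero _ ht]; simp
  have h1 := quad_aux (R := R) htr hK hw
    (fun x y hx hy => by
      have := (le_abs_self _).trans (h0 x y)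
      rwa [abs_of_nonneg (mul_nonneg hx hy)] at this)
    hx0 hy0 hz
  have h2 := quad_aux (R := R) htr.neg hK hw
    (fun x y hx hy => by
      have := (neg_le_abs _).trans (h0 x y)
      rwa [abs_of_nonneg (mul_nonneg hx hy)] at this)
    (fun y t ht => by rw [hx0 y t ht, neg_zero]) (fun x t ht => by rw [hy0 x t ht, neg_zero])
    (fun x y t a1 a2 a3 => by rw [hz x y t a1 a2 a3, neg_zero])
  have h3 : ∀ x y, 0 ≤ x → 0 ≤ y → ∀ t ∈ Icc 0 T,
      |ev om x y t| ≤ K * |x * y| * exp ((4 * M + 1) * t) := by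
    intro x y hx hy t ht
    rw [abs_of_nonneg (mul_nonneg hx hy)]
    rcases le_or_gt (x ^ 2 + y ^ 2) (R ^ 2) with hle | hgt
    · have e1 := h1 (x, y) ⟨hx, hy, hle⟩ t ht
      have e2 := h2 (x, y) ⟨hx, hy, hle⟩ t ht
      simp only at e1 e2
      exact abs_le.mpr ⟨by linarith, e1⟩
    · have e1 : ev om x y t = 0 := by
        unfold ev
        rw [hs t ht x y hgt, hs t ht (-x) y (by rw [neg_sq]; exact hgt)]
        simp
      rw [e1, abs_zero]
      have := mul_nonneg hx hy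
      positivity
  have h4 : ∀ x y, 0 ≤ y → ∀ t ∈ Icc 0 T,
      |ev om x y t| ≤ K * |x * y| * exp ((4 * M + 1) * t) := by
    intro x y hy t ht
    rcases le_total 0 x with hx | hx
    · exact h3 x y hx hy t ht
    · have := h3 (-x) y (by linarith) hy t ht
      rwa [ev_oddX, abs_neg, neg_mul, abs_neg] at this
  intro x y t ht
  rcases le_total 0 y with hy | hy
  · exact h4 x y hy t ht
  · have := h4 x (-y) (by linarith) t ht
    rwa [ev_oddY ho _ _ ht.1, abs_neg, mul_neg, abs_neg] at this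

lemma wr_le' (h : IsSolution om) {t E : ℝ} (ht : 0 ≤ t) (hK : 0 ≤ K) (hE : 0 ≤ E)
    (hev : ∀ x y, |ev om x y t| ≤ K * |x * y| * E) (ρ : ℝ) : |wr om ρ t| ≤ K * ρ ^ 2 * E := by
  rw [← wr_ev h ρ ht]
  unfold wr
  have h1 : ‖∫ φ in (0 : ℝ)..(2 * π), pol (ev om) ρ φ t * sin (2 * φ)‖ ≤
      (K * (ρ ^ 2 / 2) * E) * |2 * π - 0| := by
    apply intervalIntegral.norm_integral_le_of_norm_le_const
    intro φ _
    rw [norm_mul, norm_eq_abs, norm_eq_abs]
    have h2 : |pol (ev om) ρ φ t| ≤ K * (ρ ^ 2 / 2) * E := by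
      refine (hev _ _).trans ?_
      have h3 : |ρ * cos φ * (ρ * sin φ)| ≤ ρ ^ 2 / 2 := by
        rw [show ρ * cos φ * (ρ * sin φ) = ρ ^ 2 / 2 * sin (2 * φ) by rw [sin_two_mul]; ring,
          abs_mul, abs_of_nonneg (by positivity : (0 : ℝ) ≤ ρ ^ 2 / 2)]
        have := abs_sin_le_one (2 * φ)
        have h5 : 0 ≤ ρ ^ 2 / 2 := by positivity
        nlinarith
      gcongr
    calc |pol (ev om) ρ φ t| * |sin (2 * φ)| ≤ (K * (ρ ^ 2 / 2) * E) * 1 :=
        mul_le_mul h2 (abs_sin_le_one _) (abs_nonneg _) (by positivity)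
      _ = _ := mul_one _
  rw [abs_mul, abs_of_pos (by positivity : (0 : ℝ) < 1 / π)]
  rw [norm_eq_abs, sub_zero, abs_of_pos (by positivity : (0 : ℝ) < 2 * π)] at h1
  calc 1 / π * |∫ φ in (0 : ℝ)..(2 * π), pol (ev om) ρ φ t * sin (2 * φ)| ≤
        1 / π * ((K * (ρ ^ 2 / 2) * E) * (2 * π)) :=
        mul_le_mul_of_nonneg_left h1 (by positivity)
    _ = K * ρ ^ 2 * E := by field_simp

/-- the strain grows at most linearly -/
theorem br_bound {m C t : ℝ} (hm : 0 < m) (hK : 0 < K) (hR : 0 < R) (hs : SuppIn om R t)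
    (h1 : ∀ ρ, |wr om ρ t| ≤ m) (h2 : ∀ ρ, |wr om ρ t| ≤ K * ρ ^ 2 * exp (C * t))
    (hCt : 0 ≤ C * t) {r : ℝ} (hr : 0 < r) :
    |br om R r t| ≤ m * (C * t + log (1 + K * R ^ 2 / m)) := by
  set E := exp (C * t) with hE
  have hEpos : 0 < E := exp_pos _
  have hE1 : 1 ≤ E := one_le_exp hCt
  have hnn : 0 ≤ m * (C * t + log (1 + K * R ^ 2 / m)) := by
    have : 0 ≤ log (1 + K * R ^ 2 / m) := log_nonneg (by
      have : 0 ≤ K * R ^ 2 / m := by positivity
      linarith)
    positivity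
  rcases le_or_gt r R with hle | hgt
  · set F : ℝ → ℝ := fun ρ => m * log (m + K * ρ ^ 2 * E) with hF
    set g : ℝ → ℝ := fun ρ => m * (K * (2 * ρ) * E / (m + K * ρ ^ 2 * E)) with hg
    have hpos : ∀ ρ : ℝ, 0 < m + K * ρ ^ 2 * E := fun ρ => by positivity
    have hder : ∀ ρ, HasDerivAt F (g ρ) ρ := by
      intro ρ
      have e1 : HasDerivAt (fun ρ : ℝ => m + K * ρ ^ 2 * E) (K * (2 * ρ) * E) ρ := by
        have e0 : HasDerivAt (fun ρ : ℝ => ρ ^ 2) (2 * ρ) ρ := by simpa using hasDerivAt_pow 2 ρ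
        exact ((e0.const_mul K).mul_const E).const_add m
      exact (e1.log (hpos ρ).ne').const_mul m
    have hgc : Continuous g := by
      rw [hg]
      apply continuous_const.mul
      apply Continuous.div (by fun_prop) (by fun_prop)
      intro ρ; exact (hpos ρ).ne'
    have hint : IntervalIntegrable g volume r R := hgc.intervalIntegrable _ _
    have hle1 : ‖∫ ρ in r..R, wr om ρ t / ρ‖ ≤ ∫ ρ in r..R, g ρ := by
      apply intervalIntegral.norm_integral_le_of_norm_le hle _ hint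
      filter_upwards with ρ hρ
      have hρ0 : 0 < ρ := hr.trans hρ.1
      rw [norm_div, norm_eq_abs, norm_eq_abs, abs_of_pos hρ0, div_le_iff₀ hρ0]
      have e1 := h1 ρ
      have e2 := h2 ρ
      set q := K * ρ ^ 2 * E with hq
      have hq0 : 0 ≤ q := by positivity
      have e3 : g ρ * ρ = 2 * m * q / (m + q) := by
        rw [hg, hq]
        ring
      rw [e3, le_div_iff₀ (hpos ρ)]
      rcases le_total m q with hmq | hmq
      · nlinarith [abs_nonneg (wr om ρ t)]
      · nlinarith [abs_nonneg (wr om ρ t)]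
    have hFTC : ∫ ρ in r..R, g ρ = F R - F r :=
      intervalIntegral.integral_eq_sub_of_hasDerivAt (fun ρ _ => hder ρ) hint
    unfold br
    rw [norm_eq_abs] at hle1
    refine hle1.trans ?_
    rw [hFTC, hF]
    simp only
    have e4 : log m ≤ log (m + K * r ^ 2 * E) := log_le_log hm (by
      have : 0 ≤ K * r ^ 2 * E := by positivity
      linarith)
    have e5 : log (m + K * R ^ 2 * E) ≤ log m + (C * t + log (1 + K * R ^ 2 / m)) := by
      have e6 : m + K * R ^ 2 * E ≤ m * (E * (1 + K * R ^ 2 / m)) := by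
        have : m * (E * (1 + K * R ^ 2 / m)) = m * E + K * R ^ 2 * E := by
          field_simp
        rw [this]
        nlinarith
      have e7 := log_le_log (hpos R) e6
      have e8 : (0 : ℝ) < 1 + K * R ^ 2 / m := by positivity
      rw [log_mul hm.ne' (by positivity), log_mul hEpos.ne' e8.ne', hE, log_exp] at e7
      exact e7
    nlinarith
  · unfold br
    have hz : ∀ ρ, R < ρ → wr om ρ t / ρ = 0 := fun ρ hρ => by
      rw [wr_zero hs (by nlinarith), zero_div]
    rw [intervalIntegral.integral_symm, intervalIntegral.integral_of_le hgt.le]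
    rw [setIntegral_congr_fun measurableSet_Ioc (g := fun _ => (0 : ℝ)) (fun ρ hρ => hz ρ hρ.1)]
    simpa using hnn

theorem om_bound {L B : ℝ} (h : IsSolution om) (ho : OddY om) (hR : 0 < R)
    (hs : ∀ t ∈ Icc 0 T, SuppIn om R t) (hM : ∀ x y, ∀ t ∈ Icc 0 T, |om x y t| ≤ M) (hL : 0 < L)
    (hb : ∀ r t, 0 < r → 0 ≤ t → t ≤ T → |br om R r t| ≤ B * (1 + t))
    (h0 : ∀ x y, |om x y 0| ≤ L * |y|) :
    ∀ x y, ∀ t ∈ Icc 0 T, |om x y t| ≤ L * |y| * exp ((B + 2 * M + 1) * (1 + t) ^ 2) := by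
  rcases lt_or_ge T 0 with hT | hT
  · intro x y t ht
    exact absurd (ht.1.trans ht.2) (not_le.mpr hT)
  have hM0 : 0 ≤ M := (abs_nonneg _).trans (hM 0 0 0 ⟨le_rfl, hT⟩)
  set w' : ℝ → ℝ → ℝ := fun r t => if t ∈ Icc 0 T then wr om r t else 0 with hw'
  have htr0 := (h.tr ho hR hs)
  have htr : Tr om (br om R) w' T := by
    refine ⟨htr0.cont, htr0.diff, fun r θ t hr ht hT' => ?_⟩
    have := htr0.eqn r θ t hr ht hT'
    have e : w' r t = wr om r t := by rw [hw']; simp [ht.le, hT']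
    rwa [e]
  have hw : ∀ r t, |w' r t| ≤ 2 * M := by
    intro r t
    rw [hw']
    simp only
    split_ifs with hc
    · exact wr_le (fun x y => hM x y t hc) r
    · rw [abs_zero]; linarith
  have hz : ∀ x y t, 0 ≤ t → t ≤ T → x ^ 2 + y ^ 2 = R ^ 2 → om x y t = 0 := fun x y t h1 h2 h3 =>
    (hs t ⟨h1, h2⟩).circle (h.contSlice h1) hR h3
  have h1 := half_aux (R := R) htr hL hw hb hM0
    (fun x y hy => by
      have := (le_abs_self _).trans (h0 x y)
      rwa [abs_of_nonneg hy] at this)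
    (fun x t ht => ho.zero x ht) hz
  have h2 := half_aux (R := R) htr.neg hL hw hb hM0
    (fun x y hy => by
      have := (neg_le_abs _).trans (h0 x y)
      rwa [abs_of_nonneg hy] at this)
    (fun x t ht => by rw [ho.zero x ht, neg_zero])
    (fun x y t a1 a2 a3 => by rw [hz x y t a1 a2 a3, neg_zero])
  have h3 : ∀ x y, 0 ≤ y → ∀ t ∈ Icc 0 T,
      |om x y t| ≤ L * |y| * exp ((B + 2 * M + 1) * (1 + t) ^ 2) := by
    intro x y hy t ht
    rw [abs_of_nonneg hy]
    rcases le_or_gt (x ^ 2 + y ^ 2) (R ^ 2) with hle | hgt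
    · have e1 := h1 (x, y) ⟨hy, hle⟩ t ht
      have e2 := h2 (x, y) ⟨hy, hle⟩ t ht
      simp only at e1 e2
      exact abs_le.mpr ⟨by linarith, e1⟩
    · rw [hs t ht x y hgt, abs_zero]; positivity
  intro x y t ht
  rcases le_total 0 y with hy | hy
  · exact h3 x y hy t ht
  · have := h3 x (-y) (by linarith) t ht
    rwa [ho x y t ht.1, abs_neg, abs_neg] at this

end Pool.Agent.Helper64.Euler
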