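import Mathlib

set_option autoImplicit false

open Set Filter Topology Real MeasureTheory
open scoped ContDiff

namespace Pool.Agent.Helper64.Euler

/-- the scalar `om(x, y, t)` in polar coordinates -/
noncomputable def pol (om : ℝ → ℝ → ℝ → ℝ) (r θ t : ℝ) : ℝ := om (r * cos θ) (r * sin θ) t

/-- projection of `om(ρ, ·, t)` onto the span of `cos 2θ` and `sin 2θ` -/
noncomputable def P2 (om : ℝ → ℝ → ℝ → ℝ) (ρ θ t : ℝ) : ℝ :=
  1 / π * ∫ φ in (0 : ℝ)..(2 * π), pol om ρ φ t * cos (2 * (θ - φ))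

/-- the stream function `ψ(r, θ, t) = r² ∫_r^∞ P₂om(ρ, θ, t) / ρ dρ` -/
noncomputable def psi (om : ℝ → ℝ → ℝ → ℝ) (r θ t : ℝ) : ℝ :=
  r ^ 2 * ∫ ρ in Ioi r, P2 om ρ θ t / ρ

/-- Smooth compactly supported solutions of the model equation on `ℝ² × [0, ∞)`: `om` is `C^∞` on
`{t ≥ 0}`, every `om(·, t)`, `t ≥ 0`, has compact support, and
`∂ₜom + (1/r) (∂_θψ ∂_rom - ∂_rψ ∂_θom) = 0` for all `t > 0`, `r > 0` and `θ`. -/
structure IsSolution (om : ℝ → ℝ → ℝ → ℝ) : Prop where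
  smooth : ContDiffOn ℝ ∞ (fun p : (ℝ × ℝ) × ℝ => om p.1.1 p.1.2 p.2) (univ ×ˢ Ici 0)
  compact : ∀ t, 0 ≤ t → HasCompactSupport (fun p : ℝ × ℝ => om p.1 p.2 t)
  eqn : ∀ r θ t, 0 < r → 0 < t →
    deriv (fun s => pol om r θ s) t +
      1 / r * (deriv (fun φ => psi om r φ t) θ * deriv (fun ρ => pol om ρ θ t) r -
        deriv (fun ρ => psi om ρ θ t) r * deriv (fun φ => pol om r φ t) θ) = 0

/-- the Euclidean norm of the spatial gradient of `om` at `(x, y, t)` -/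
noncomputable def gradNorm (om : ℝ → ℝ → ℝ → ℝ) (x y t : ℝ) : ℝ :=
  √((deriv (fun u => om u y t) x) ^ 2 + (deriv (fun v => om x v t) y) ^ 2)

end Pool.Agent.Helper64.Euler
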