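import Pool.Agent.Helper64.Euler.Barrier

set_option autoImplicit false

open Set Filter Topology Real MeasureTheory
open scoped ContDiff

namespace Pool.Agent.Helper64.Euler

variable {om : ℝ → ℝ → ℝ → ℝ} {R M T : ℝ}

lemma OddY.zero (ho : OddY om) (x : ℝ) {t : ℝ} (ht : 0 ≤ t) : om x 0 t = 0 := by
  have := ho x 0 t ht
  rw [neg_zero] at this
  linarith

/-- conservation of the upper bound, one sign -/
lemma sup_aux {f : ℝ → ℝ → ℝ → ℝ} {b w : ℝ → ℝ → ℝ} (hf : Tr f b w T) (hM : 0 ≤ M)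
    (h0 : ∀ x y, f x y 0 ≤ M) (hy : ∀ x t, 0 ≤ t → f x 0 t = 0)
    (hc : ∀ x y t, 0 ≤ t → t ≤ T → x ^ 2 + y ^ 2 = R ^ 2 → f x y t = 0) :
    ∀ p ∈ HD R, ∀ t ∈ Icc 0 T, f p.1 p.2 t ≤ M := by
  intro p hp t ht
  have key : ∀ ε > 0, f p.1 p.2 t ≤ M + ε * t := by
    intro ε hε
    refine barrier hf (isCompact_HD R) (zero_notMem_HD R) (G := fun _ t => M + ε * t)
      (by fun_prop) ?_ ?_ ?_ p hp t ht
    · intro q _
      have := h0 q.1 q.2
      simpa using this
    · intro q hq hqi s hs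
      have h1 : f q.1 q.2 s = 0 := by
        rcases HD_boundary hq hqi with h | h
        · rw [h]; exact hy _ _ hs.1
        · exact hc _ _ _ hs.1 hs.2 h
      rw [h1]
      have := mul_nonneg hε.le hs.1
      linarith
    · intro r θ s hr _ hs _ _
      refine ⟨0, 0, ε, hasDerivAt_const _ _, hasDerivAt_const _ _, ?_, by simpa using hε⟩
      have := ((hasDerivAt_id s).const_mul ε).const_add M
      simpa using this
  have h1 : Tendsto (fun ε : ℝ => M + ε * t) (𝓝[>] 0) (𝓝 (M + 0 * t)) := by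
    have : Continuous (fun ε : ℝ => M + ε * t) := by fun_prop
    exact (this.tendsto 0).mono_left nhdsWithin_le_nhds
  rw [zero_mul, add_zero] at h1
  refine ge_of_tendsto h1 ?_
  filter_upwards [self_mem_nhdsWithin] with ε hε
  exact key ε hε

theorem sup_bound (h : IsSolution om) (ho : OddY om) (hR : 0 < R)
    (hs : ∀ t ∈ Icc 0 T, SuppIn om R t) (h0 : ∀ x y, |om x y 0| ≤ M) :
    ∀ x y, ∀ t ∈ Icc 0 T, |om x y t| ≤ M := by
  have hM : 0 ≤ M := (abs_nonneg _).trans (h0 0 0)
  have htr := h.tr ho hR hs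
  have h1 := sup_aux (R := R) htr hM (fun x y => (le_abs_self _).trans (h0 x y))
    (fun x t ht => ho.zero x ht)
    (fun x y t h1 h2 h3 => (hs t ⟨h1, h2⟩).circle (h.contSlice h1) hR h3)
  have h2 := sup_aux (R := R) htr.neg hM (fun x y => (neg_le_abs _).trans (h0 x y))
    (fun x t ht => by rw [ho.zero x ht, neg_zero])
    (fun x y t h1 h2 h3 => by
      rw [(hs t ⟨h1, h2⟩).circle (h.contSlice h1) hR h3, neg_zero])
  have h3 : ∀ x y, 0 ≤ y → ∀ t ∈ Icc 0 T, |om x y t| ≤ M := by
    intro x y hy t ht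
    rcases le_or_gt (x ^ 2 + y ^ 2) (R ^ 2) with hle | hgt
    · have e1 := h1 (x, y) ⟨hy, hle⟩ t ht
      have e2 := h2 (x, y) ⟨hy, hle⟩ t ht
      simp only at e1 e2
      exact abs_le.mpr ⟨by linarith, e1⟩
    · rw [hs t ht x y hgt, abs_zero]; exact hM
  intro x y t ht
  rcases le_total 0 y with hy | hy
  · exact h3 x y hy t ht
  · have := h3 x (-y) (by linarith) t ht
    rwa [ho x y t ht.1, abs_neg] at this

/-- the part odd in `x` -/
noncomputable def ev (om : ℝ → ℝ → ℝ → ℝ) (x y t : ℝ) : ℝ := (om x y t - om (-x) y t) / 2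

lemma pol_ev (r θ t : ℝ) : pol (ev om) r θ t = (pol om r θ t - pol om r (π - θ) t) / 2 := by
  unfold pol ev
  rw [cos_pi_sub, sin_pi_sub, mul_neg]

lemma Tr.ev {b w : ℝ → ℝ → ℝ} (hf : Tr om b w T) : Tr (ev om) b w T where
  cont := by
    unfold Euler.ev
    apply ContinuousOn.div_const
    apply hf.cont.sub
    have : ContinuousOn (fun p : (ℝ × ℝ) × ℝ => ((-p.1.1, p.1.2), p.2)) (univ ×ˢ Icc 0 T) := by
      fun_prop
    exact hf.cont.comp this (fun p hp => ⟨mem_univ _, hp.2⟩)
  diff t h0 h1 := by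
    unfold Euler.ev
    have e1 := hf.diff t h0 h1
    have e2 : Differentiable ℝ (fun p : ℝ × ℝ => om (-p.1) p.2 t) := by
      have : Differentiable ℝ (fun p : ℝ × ℝ => (-p.1, p.2)) := by fun_prop
      exact e1.comp this
    have e3 : Differentiable ℝ (fun p : ℝ × ℝ => om p.1 p.2 t - om (-p.1) p.2 t) := e1.sub e2
    simpa only [div_eq_mul_inv] using e3.mul_const (2 : ℝ)⁻¹
  eqn r θ t hr ht hT := by
    have e1 := hf.eqn r θ t hr ht hT
    have e2 := hf.eqn r (π - θ) t hr ht hT
    have hd := hf.diff t ht.le hT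
    have c1 : cos (2 * (π - θ)) = cos (2 * θ) := by
      rw [show 2 * (π - θ) = 2 * π - 2 * θ by ring, cos_two_pi_sub]
    have c2 : sin (2 * (π - θ)) = - sin (2 * θ) := by
      rw [show 2 * (π - θ) = 2 * π - 2 * θ by ring, sin_two_pi_sub]
    rw [c1, c2] at e2
    have d1 : deriv (fun ρ => pol (Euler.ev om) ρ θ t) r =
        (deriv (fun ρ => pol om ρ θ t) r - deriv (fun ρ => pol om ρ (π - θ) t) r) / 2 := by
      simp only [pol_ev]
      have a1 : DifferentiableAt ℝ (fun ρ => pol om ρ θ t) r := diff_polR hd θ r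
      have a2 : DifferentiableAt ℝ (fun ρ => pol om ρ (π - θ) t) r := diff_polR hd (π - θ) r
      rw [deriv_div_const, deriv_fun_sub a1 a2]
    have d2 : deriv (fun φ => pol (Euler.ev om) r φ t) θ =
        (deriv (fun φ => pol om r φ t) θ + deriv (fun φ => pol om r φ t) (π - θ)) / 2 := by
      simp only [pol_ev]
      have a1 : DifferentiableAt ℝ (fun φ => pol om r φ t) θ := diff_polT hd r θ
      have a2 : DifferentiableAt ℝ (fun φ => pol om r φ t) (π - θ) := diff_polT hd r (π - θ)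
      have a3 : HasDerivAt (fun φ : ℝ => π - φ) (-1) θ := by
        simpa using (hasDerivAt_id θ).const_sub π
      have a4 : HasDerivAt (fun φ => pol om r (π - φ) t)
          (deriv (fun φ => pol om r φ t) (π - θ) * (-1)) θ := by
        exact HasDerivAt.comp (h₂ := fun φ => pol om r φ t) θ a2.hasDerivAt a3
      have a5 : HasDerivAt (fun φ => (pol om r φ t - pol om r (π - φ) t) / 2)
          ((deriv (fun φ => pol om r φ t) θ - deriv (fun φ => pol om r φ t) (π - θ) * (-1)) / 2) θ :=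
        (a1.hasDerivAt.sub a4).div_const 2
      rw [HasDerivAt.deriv a5]
      ring
    rw [d1, d2]
    have := (e1.sub e2).div_const 2
    refine (this.congr_deriv ?_).congr_of_eventuallyEq ?_
    · ring
    · filter_upwards with s
      rw [pol_ev]
      rfl

lemma wr_ev (h : IsSolution om) (ρ : ℝ) {t : ℝ} (ht : 0 ≤ t) : wr (ev om) ρ t = wr om ρ t := by
  have hc : Continuous (fun φ : ℝ => pol om ρ φ t) :=
    (contPol h ht).comp (f := fun φ : ℝ => (ρ, φ)) (by fun_prop)
  have hc2 : Continuous (fun φ : ℝ => pol om ρ (π - φ) t) :=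
    hc.comp (f := fun φ : ℝ => π - φ) (by fun_prop)
  unfold wr
  congr 1
  simp only [pol_ev]
  have h1 : ∫ φ in (0 : ℝ)..(2 * π), pol om ρ (π - φ) t * sin (2 * φ) =
      - ∫ φ in (0 : ℝ)..(2 * π), pol om ρ φ t * sin (2 * φ) := by
    have e1 : ∀ φ : ℝ, pol om ρ (π - φ) t * sin (2 * φ) =
        (fun u => - (pol om ρ u t * sin (2 * u))) (π - φ) := by
      intro φ
      simp only
      rw [show 2 * (π - φ) = 2 * π - 2 * φ by ring, sin_two_pi_sub]
      ring
    simp only [e1]
    rw [intervalIntegral.integral_comp_sub_left (fun u => - (pol om ρ u t * sin (2 * u))) π,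
      intervalIntegral.integral_neg]
    congr 1
    have hper : Function.Periodic (fun u => pol om ρ u t * sin (2 * u)) (2 * π) := by
      intro u
      unfold pol
      simp only
      rw [cos_add_two_pi, sin_add_two_pi, show 2 * (u + 2 * π) = 2 * u + 2 * π + 2 * π by ring,
        sin_add_two_pi, sin_add_two_pi]
    have := hper.intervalIntegral_add_eq (-π) 0
    rw [show -π + 2 * π = π by ring, zero_add] at this
    rw [show π - 2 * π = -π by ring, sub_zero]
    exact this
  have h2 : ∫ φ in (0 : ℝ)..(2 * π), (pol om ρ φ t - pol om ρ (π - φ) t) / 2 * sin (2 * φ) =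
      1 / 2 * (∫ φ in (0 : ℝ)..(2 * π), pol om ρ φ t * sin (2 * φ)) -
      1 / 2 * (∫ φ in (0 : ℝ)..(2 * π), pol om ρ (π - φ) t * sin (2 * φ)) := by
    rw [← intervalIntegral.integral_const_mul, ← intervalIntegral.integral_const_mul,
      ← intervalIntegral.integral_sub]
    · refine intervalIntegral.integral_congr fun φ _ => ?_
      ring
    · exact (by fun_prop : Continuous fun φ : ℝ =>
        1 / 2 * (pol om ρ φ t * sin (2 * φ))).intervalIntegrable _ _
    · exact (by fun_prop : Continuous fun φ : ℝ =>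
        1 / 2 * (pol om ρ (π - φ) t * sin (2 * φ))).intervalIntegrable _ _
  rw [h2, h1]
  ring

/-- the quadrant barrier, one sign -/
lemma quad_aux {f : ℝ → ℝ → ℝ → ℝ} {b w : ℝ → ℝ → ℝ} (hf : Tr f b w T) {K : ℝ} (hK : 0 < K)
    (hw : ∀ r t, |w r t| ≤ 2 * M)
    (h0 : ∀ x y, 0 ≤ x → 0 ≤ y → f x y 0 ≤ K * (x * y))
    (hx : ∀ y t, 0 ≤ t → f 0 y t = 0) (hy : ∀ x t, 0 ≤ t → f x 0 t = 0)
    (hc : ∀ x y t, 0 ≤ t → t ≤ T → x ^ 2 + y ^ 2 = R ^ 2 → f x y t = 0) :
    ∀ p ∈ QD R, ∀ t ∈ Icc 0 T, f p.1 p.2 t ≤ K * (p.1 * p.2) * exp ((4 * M + 1) * t) := by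
  refine barrier hf (isCompact_QD R) (zero_notMem_QD R)
    (G := fun p t => K * (p.1 * p.2) * exp ((4 * M + 1) * t)) (by fun_prop) ?_ ?_ ?_
  · intro q hq
    simpa using h0 q.1 q.2 hq.1 hq.2.1
  · intro q hq hqi s hs
    have h1 : f q.1 q.2 s = 0 := by
      rcases QD_boundary hq hqi with h | h | h
      · rw [h]; exact hx _ _ hs.1
      · rw [h]; exact hy _ _ hs.1
      · exact hc _ _ _ hs.1 hs.2 h
    rw [h1]
    have := mul_nonneg hq.1 hq.2.1
    positivity
  · intro r θ s hr hi hs _ _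
    obtain ⟨hcos, hsin⟩ := QD_interior hi
    simp only at hcos hsin
    set E := exp ((4 * M + 1) * s) with hE
    have hEpos : 0 < E := exp_pos _
    refine ⟨K * (2 * r * (cos θ * sin θ)) * E, K * (r ^ 2 * (cos θ ^ 2 - sin θ ^ 2)) * E,
      K * (r * cos θ * (r * sin θ)) * (E * (4 * M + 1)), ?_, ?_, ?_, ?_⟩
    · have e1 : HasDerivAt (fun ρ : ℝ => ρ ^ 2) (2 * r) r := by simpa using hasDerivAt_pow 2 r
      have e2 := ((e1.mul_const (cos θ * sin θ)).const_mul K).mul_const E
      refine e2.congr_of_eventuallyEq ?_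
      filter_upwards with ρ
      ring
    · have e1 : HasDerivAt (fun φ => cos φ * sin φ) (-sin θ * sin θ + cos θ * cos θ) θ :=
        (hasDerivAt_cos θ).mul (hasDerivAt_sin θ)
      have e2 := ((e1.const_mul (r ^ 2)).const_mul K).mul_const E
      refine (e2.congr_deriv ?_).congr_of_eventuallyEq ?_
      · ring
      · filter_upwards with φ
        ring
    · have e1 : HasDerivAt (fun s : ℝ => (4 * M + 1) * s) (4 * M + 1) s := by
        simpa using (hasDerivAt_id s).const_mul (4 * M + 1)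
      exact e1.exp.const_mul _
    · have c1 : cos (2 * θ) = cos θ ^ 2 - sin θ ^ 2 := by rw [cos_two_mul']
      have c2 : sin (2 * θ) = 2 * sin θ * cos θ := by rw [sin_two_mul]
      have hcs : 0 < (r * cos θ) * (r * sin θ) := mul_pos hcos hsin
      have hpos : 0 < K * ((r * cos θ) * (r * sin θ)) * E := by positivity
      have hwc : -(2 * w r s * cos (2 * θ)) ≤ 4 * M := by
        have h1 := neg_le_abs (2 * w r s * cos (2 * θ))
        have h2 : |2 * w r s * cos (2 * θ)| ≤ 2 * (2 * M) * 1 := by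
          rw [abs_mul, abs_mul, abs_two]
          have := hw r s
          have h3 := abs_cos_le_one (2 * θ)
          have h4 : 0 ≤ |w r s| := abs_nonneg _
          have h5 : 0 ≤ |cos (2 * θ)| := abs_nonneg _
          have h6 : 2 * |w r s| ≤ 2 * (2 * M) := by linarith
          exact mul_le_mul h6 h3 h5 (by linarith)
        linarith
      have hmain : -(2 * r * cos (2 * θ) * b r s) * (K * (2 * r * (cos θ * sin θ)) * E) +
          sin (2 * θ) * (2 * b r s - w r s) * (K * (r ^ 2 * (cos θ ^ 2 - sin θ ^ 2)) * E) =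
          -(2 * w r s * cos (2 * θ)) * (K * ((r * cos θ) * (r * sin θ)) * E) := by
        rw [c1, c2]; ring
      rw [hmain]
      nlinarith

/-- the half plane barrier, one sign -/
lemma half_aux {f : ℝ → ℝ → ℝ → ℝ} {b w : ℝ → ℝ → ℝ} (hf : Tr f b w T) {L B : ℝ} (hL : 0 < L)
    (hw : ∀ r t, |w r t| ≤ 2 * M) (hb : ∀ r t, 0 < r → 0 ≤ t → t ≤ T → |b r t| ≤ B * (1 + t))
    (hM : 0 ≤ M)
    (h0 : ∀ x y, 0 ≤ y → f x y 0 ≤ L * y) (hy : ∀ x t, 0 ≤ t → f x 0 t = 0)
    (hc : ∀ x y t, 0 ≤ t → t ≤ T → x ^ 2 + y ^ 2 = R ^ 2 → f x y t = 0) :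
    ∀ p ∈ HD R, ∀ t ∈ Icc 0 T, f p.1 p.2 t ≤ L * p.2 * exp ((B + 2 * M + 1) * (1 + t) ^ 2) := by
  have hB : 0 ≤ B ∨ T < 0 := by
    rcases lt_or_ge T 0 with h | h
    · exact Or.inr h
    · left
      have := (abs_nonneg _).trans (hb 1 0 one_pos le_rfl h)
      simpa using this
  rcases hB with hB | hT
  swap
  · intro p _ t ht
    exact absurd (ht.1.trans ht.2) (not_le.mpr hT)
  set A := B + 2 * M + 1 with hA
  have hApos : 0 < A := by positivity
  refine barrier hf (isCompact_HD R) (zero_notMem_HD R)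
    (G := fun p t => L * p.2 * exp (A * (1 + t) ^ 2)) (by fun_prop) ?_ ?_ ?_
  · intro q hq
    have h1 := h0 q.1 q.2 hq.1
    have h2 : 1 ≤ exp (A * (1 + 0) ^ 2) := one_le_exp (by positivity)
    have h3 : 0 ≤ L * q.2 := mul_nonneg hL.le hq.1
    calc f q.1 q.2 0 ≤ L * q.2 * 1 := by linarith
      _ ≤ _ := mul_le_mul_of_nonneg_left h2 h3
  · intro q hq hqi s hs
    have h1 : f q.1 q.2 s = 0 := by
      rcases HD_boundary hq hqi with h | h
      · rw [h]; exact hy _ _ hs.1
      · exact hc _ _ _ hs.1 hs.2 h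
    rw [h1]
    have := hq.1
    positivity
  · intro r θ s hr hi hs hsT _
    have hsin := HD_interior hi
    simp only at hsin
    set E := exp (A * (1 + s) ^ 2) with hE
    have hEpos : 0 < E := exp_pos _
    refine ⟨L * (1 * sin θ) * E, L * (r * cos θ) * E,
      L * (r * sin θ) * (E * (A * (2 * (1 + s)))), ?_, ?_, ?_, ?_⟩
    · exact (((hasDerivAt_id r).mul_const (sin θ)).const_mul L).mul_const E
    · exact (((hasDerivAt_sin θ).const_mul r).const_mul L).mul_const E
    · have e0 : HasDerivAt (fun s : ℝ => 1 + s) 1 s := by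
        simpa using (hasDerivAt_id s).const_add 1
      have e1 : HasDerivAt (fun s : ℝ => A * (1 + s) ^ 2) (A * (2 * (1 + s))) s := by
        have := (e0.pow 2).const_mul A
        refine this.congr_deriv ?_
        simp
      exact e1.exp.const_mul _
    · have c1 : cos (2 * θ) = cos θ ^ 2 - sin θ ^ 2 := by rw [cos_two_mul']
      have c2 : sin (2 * θ) = 2 * sin θ * cos θ := by rw [sin_two_mul]
      have hpos : 0 < L * (r * sin θ) * E := by positivity
      have hb1 := hb r s hr hs.le hsT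
      have hw1 := hw r s
      have hmain : -(2 * r * cos (2 * θ) * b r s) * (L * (1 * sin θ) * E) +
          sin (2 * θ) * (2 * b r s - w r s) * (L * (r * cos θ) * E) =
          (2 * b r s - 2 * w r s * cos θ ^ 2) * (L * (r * sin θ) * E) := by
        rw [c1, c2]
        have : cos θ ^ 2 = 1 - sin θ ^ 2 := by have := sin_sq_add_cos_sq θ; linarith
        have h2 : -(2 * r * (cos θ ^ 2 - sin θ ^ 2) * b r s) * (L * (1 * sin θ) * E) +
          2 * sin θ * cos θ * (2 * b r s - w r s) * (L * (r * cos θ) * E) =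
          (L * (r * sin θ) * E) * (2 * b r s * (sin θ ^ 2 + cos θ ^ 2) -
            2 * w r s * cos θ ^ 2) := by ring
        rw [h2, sin_sq_add_cos_sq]
        ring
      rw [hmain]
      have h3 : 2 * b r s - 2 * w r s * cos θ ^ 2 ≤ 2 * (B * (1 + s)) + 4 * M := by
        have a1 := le_abs_self (b r s)
        have a2 : -(w r s * cos θ ^ 2) ≤ 2 * M := by
          have a3 := neg_le_abs (w r s * cos θ ^ 2)
          have a4 : |w r s * cos θ ^ 2| ≤ 2 * M * 1 := by
            rw [abs_mul]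
            have : |cos θ ^ 2| ≤ 1 := by
              rw [abs_of_nonneg (sq_nonneg _)]; nlinarith [sin_sq_add_cos_sq θ, sq_nonneg (sin θ)]
            exact mul_le_mul hw1 this (abs_nonneg _) (by linarith)
          linarith
        linarith
      have h4 : 2 * (B * (1 + s)) + 4 * M < A * (2 * (1 + s)) := by
        rw [hA]; nlinarith
      have h5 : 2 * b r s - 2 * w r s * cos θ ^ 2 < A * (2 * (1 + s)) := lt_of_le_of_lt h3 h4
      have := mul_lt_mul_of_pos_right h5 hpos
      calc _ < _ := this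
        _ = _ := by ring

end Pool.Agent.Helper64.Euler
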