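import Pool.Agent.Helper64.Euler.Window

set_option autoImplicit false

open Set Filter Topology Real MeasureTheory
open scoped ContDiff

namespace Pool.Agent.Helper64.Euler

variable {om : ℝ → ℝ → ℝ → ℝ}

/-- some relatively open piece of the bad set has a common support radius -/
lemma bad_baire (h : IsSolution om) (hne : (Bad om).Nonempty) :
    ∃ e ∈ Bad om, ∃ n : ℕ, ∃ δ > 0, 0 < n ∧ ∀ t ∈ Bad om, |t - e| < δ → SuppIn om n t := by
  have : CompleteSpace (Bad om) := (isClosed_Bad om).completeSpace_coe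
  have : Nonempty (Bad om) := hne.to_subtype
  have hc : ∀ n : ℕ, IsClosed {t : Bad om | SuppIn om n (t : ℝ)} := by
    intro n
    apply IsSeqClosed.isClosed
    intro u t hu hlim
    have h1 : Tendsto (fun k => (u k : ℝ)) atTop (𝓝 (t : ℝ)) :=
      (continuous_subtype_val.tendsto t).comp hlim
    exact suppIn_closed h (fun k => (u k).2.1) t.2.1 h1 hu
  have hU : ⋃ n : ℕ, {t : Bad om | SuppIn om n (t : ℝ)} = univ := by
    rw [eq_univ_iff_forall]
    intro t
    obtain ⟨R, hR, hs⟩ := exists_supp h t.2.1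
    obtain ⟨n, hn⟩ := exists_nat_ge R
    exact mem_iUnion.mpr ⟨n, suppIn_mono hR.le hn hs⟩
  obtain ⟨n, e, he⟩ := nonempty_interior_of_iUnion_of_closed hc hU
  rw [mem_interior_iff_mem_nhds, Metric.mem_nhds_iff] at he
  obtain ⟨δ, hδ, hb⟩ := he
  refine ⟨e, e.2, n + 1, δ, hδ, Nat.succ_pos n, fun t ht hte => ?_⟩
  have h1 : (⟨t, ht⟩ : Bad om) ∈ Metric.ball e δ := by
    rw [Metric.mem_ball, Subtype.dist_eq, Real.dist_eq]
    exact hte
  have h2 : SuppIn om n t := hb h1
  apply suppIn_mono (by positivity) _ h2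
  push_cast
  linarith

lemma bad_right (h : IsSolution om) (ho : OddY om) {e δ s : ℝ} {n : ℕ} (he : e ∈ Bad om)
    (hn : 0 < n) (hb : ∀ t ∈ Bad om, |t - e| < δ → SuppIn om n t) (hes : e < s)
    (hsδ : s < e + δ) (hs : s ∉ Bad om) : SuppIn om n s := by
  have hcomp : IsCompact (Bad om ∩ Icc e s) := isCompact_Icc.inter_left (isClosed_Bad om)
  have hne : (Bad om ∩ Icc e s).Nonempty := ⟨e, he, le_rfl, hes.le⟩
  obtain ⟨hpB, hep, hps⟩ := hcomp.sSup_mem hne
  set p := sSup (Bad om ∩ Icc e s) with hp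
  have hps' : p < s := lt_of_le_of_ne hps fun h' => hs (h' ▸ hpB)
  have hp0 : 0 ≤ p := hpB.1
  have hgood : ∀ t, p < t → t ≤ s → t ∉ Bad om := by
    intro t h1 h2 h3
    have : t ≤ p := le_csSup hcomp.bddAbove ⟨h3, hep.trans h1.le, h2⟩
    linarith
  obtain ⟨R, hR, hRs⟩ := exists_supp h (hp0.trans hps)
  have hcommon : ∀ t, p < t → t ≤ s → SuppIn om R t := by
    intro t h1 h2
    obtain ⟨R', _, hR's⟩ := unif_of_good (om := om) (a := t) (c := s) (hp0.trans h1.le)
      (fun u hu => hgood u (h1.trans_le hu.1) hu.2)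
    exact win_bwd h ho (hp0.trans_lt h1) hR hR's hRs t ⟨le_rfl, h2⟩
  have hpn : SuppIn om n p := hb p hpB (by
    rw [abs_of_nonneg (by linarith)]
    linarith)
  have hnn : (0 : ℝ) < n := by exact_mod_cast hn
  have hall : ∀ t ∈ Icc p s, SuppIn om (max R n) t := by
    intro t ht
    rcases eq_or_lt_of_le ht.1 with h1 | h1
    · rw [← h1]; exact suppIn_mono hnn.le (le_max_right _ _) hpn
    · exact suppIn_mono hR.le (le_max_left _ _) (hcommon t h1 ht.2)
  exact win_fwd h ho hp0 hnn hall hpn s ⟨hps, le_rfl⟩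

lemma bad_left (h : IsSolution om) (ho : OddY om) {e δ s : ℝ} {n : ℕ} (he : e ∈ Bad om)
    (hn : 0 < n) (hb : ∀ t ∈ Bad om, |t - e| < δ → SuppIn om n t) (hs0 : 0 < s) (hes : s < e)
    (hsδ : e - δ < s) (hs : s ∉ Bad om) : SuppIn om n s := by
  have hcomp : IsCompact (Bad om ∩ Icc s e) := isCompact_Icc.inter_left (isClosed_Bad om)
  have hne : (Bad om ∩ Icc s e).Nonempty := ⟨e, he, hes.le, le_rfl⟩
  obtain ⟨hpB, hsp, hpe⟩ := hcomp.sInf_mem hne
  set p := sInf (Bad om ∩ Icc s e) with hp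
  have hps' : s < p := lt_of_le_of_ne hsp fun h' => hs (h' ▸ hpB)
  have hp0 : 0 ≤ p := hpB.1
  have hgood : ∀ t, s ≤ t → t < p → t ∉ Bad om := by
    intro t h1 h2 h3
    have : p ≤ t := csInf_le hcomp.bddBelow ⟨h3, h1, h2.le.trans hpe⟩
    linarith
  obtain ⟨R, hR, hRs⟩ := exists_supp h hs0.le
  have hcommon : ∀ t, s ≤ t → t < p → SuppIn om R t := by
    intro t h1 h2
    obtain ⟨R', _, hR's⟩ := unif_of_good (om := om) (a := s) (c := t) hs0.le
      (fun u hu => hgood u hu.1 (hu.2.trans_lt h2))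
    exact win_fwd h ho hs0.le hR hR's hRs t ⟨h1, le_rfl⟩
  have hpn : SuppIn om n p := hb p hpB (by
    rw [abs_sub_comm, abs_of_nonneg (by linarith)]
    linarith)
  have hnn : (0 : ℝ) < n := by exact_mod_cast hn
  have hall : ∀ t ∈ Icc s p, SuppIn om (max R n) t := by
    intro t ht
    rcases eq_or_lt_of_le ht.2 with h1 | h1
    · rw [h1]; exact suppIn_mono hnn.le (le_max_right _ _) hpn
    · exact suppIn_mono hR.le (le_max_left _ _) (hcommon t ht.1 h1)
  exact win_bwd h ho hs0 hnn hall hpn s ⟨le_rfl, hsp⟩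

lemma bad_empty (h : IsSolution om) (ho : OddY om) : ∀ t, t ∉ Bad om := by
  intro t ht
  obtain ⟨e, he, n, δ, hδ, hn, hb⟩ := bad_baire h ⟨t, ht⟩
  have hpos : ∀ s, 0 < s → |s - e| < δ → SuppIn om n s := by
    intro s hs hse
    by_cases hsB : s ∈ Bad om
    · exact hb s hsB hse
    · have hs1 := abs_lt.mp hse
      rcases lt_trichotomy s e with h1 | h1 | h1
      · exact bad_left h ho he hn hb hs h1 (by linarith) hsB
      · exact absurd (h1 ▸ he) hsB
      · exact bad_right h ho he hn hb h1 (by linarith) hsB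
  obtain ⟨s, hs0, hs1, hs2⟩ := he.2 n δ hδ
  apply hs2
  rcases eq_or_lt_of_le hs0 with h1 | h1
  · subst h1
    have he0 : 0 ≤ e := he.1
    have hs3 := (abs_lt.mp hs1).1
    have hlim : Tendsto (fun k : ℕ => (δ - e) / 2 * (1 / ((k : ℝ) + 1))) atTop (𝓝 0) := by
      have := (tendsto_one_div_add_atTop_nhds_zero_nat (𝕜 := ℝ)).const_mul ((δ - e) / 2)
      simpa using this
    have hpos' : ∀ k : ℕ, 0 < (δ - e) / 2 * (1 / ((k : ℝ) + 1)) := fun k => by
      apply mul_pos (by linarith) (by positivity)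
    have hle' : ∀ k : ℕ, (δ - e) / 2 * (1 / ((k : ℝ) + 1)) ≤ (δ - e) / 2 := fun k => by
      have : 1 / ((k : ℝ) + 1) ≤ 1 := by
        rw [div_le_one (by positivity)]
        have : (0 : ℝ) ≤ k := by positivity
        linarith
      nlinarith
    apply suppIn_closed h (fun k => (hpos' k).le) le_rfl hlim
    intro k
    apply hpos _ (hpos' k)
    rw [abs_lt]
    constructor
    · linarith [hpos' k]
    · linarith [hle' k]
  · exact hpos s h1 hs1

/-- the support disc at time `0` contains the support for all later times -/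
theorem supp_global (h : IsSolution om) (ho : OddY om) {R : ℝ} (hR : 0 < R)
    (h0 : SuppIn om R 0) {t : ℝ} (ht : 0 ≤ t) : SuppIn om R t := by
  obtain ⟨R', _, hR's⟩ := unif_of_good (om := om) (a := 0) (c := t) le_rfl
    (fun u _ => bad_empty h ho u)
  exact win_fwd h ho le_rfl hR hR's h0 t ⟨ht, le_rfl⟩

end Pool.Agent.Helper64.Euler
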