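import Pool.Agent.Helper64.Euler.Bounds
import Pool.Agent.Helper64.Euler.Global

set_option autoImplicit false

open Set Filter Topology Real MeasureTheory
open scoped ContDiff

namespace Pool.Agent.Helper64.Euler

variable {om : ℝ → ℝ → ℝ → ℝ}

lemma init_sup (h : IsSolution om) : ∃ M > 0, ∀ x y, |om x y 0| ≤ M := by
  obtain ⟨C, hC⟩ := (h.contSlice le_rfl).bounded_above_of_compact_support (h.compact 0 le_rfl)
  refine ⟨max C 1, by positivity, fun x y => ?_⟩
  exact (hC (x, y)).trans (le_max_left _ _)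

lemma init_lip (h : IsSolution om) (ho : OddY om) : ∃ L > 0, ∀ x y, |om x y 0| ≤ L * |y| := by
  obtain ⟨C, hC⟩ := ContDiff.lipschitzWith_of_hasCompactSupport (h.compact 0 le_rfl)
    (h.slice le_rfl) (by simp)
  refine ⟨C + 1, by positivity, fun x y => ?_⟩
  have h1 := hC.dist_le_mul (x, y) (x, 0)
  simp only at h1
  rw [ho.zero x le_rfl, Real.dist_eq, sub_zero, Prod.dist_eq] at h1
  simp only [dist_self, Real.dist_eq, sub_zero] at h1
  rw [max_eq_right (abs_nonneg y)] at h1
  nlinarith [abs_nonneg y]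

lemma init_quad (h : IsSolution om) (ho : OddY om) :
    ∃ K > 0, ∀ x y, |ev om x y 0| ≤ K * |x * y| := by
  set f : ℝ × ℝ → ℝ := fun p => om p.1 p.2 0 with hf
  have hs : ContDiff ℝ ∞ f := h.slice le_rfl
  have hc : HasCompactSupport f := h.compact 0 le_rfl
  have hdf : Differentiable ℝ f := h.diffSlice le_rfl
  have hd : ContDiff ℝ ∞ (fun p => fderiv ℝ f p (1, 0)) :=
    (hs.fderiv_right (m := ∞) (by simp)).clm_apply contDiff_const
  have hdc : HasCompactSupport (fun p => fderiv ℝ f p (1, 0)) := hc.fderiv_apply ℝ (1, 0)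
  obtain ⟨C, hC⟩ := ContDiff.lipschitzWith_of_hasCompactSupport hdc hd (by simp)
  have hder : ∀ x y, HasDerivAt (fun u => f (u, y)) (fderiv ℝ f (x, y) (1, 0)) x := by
    intro x y
    have h1 := (hdf (x, y)).hasFDerivAt
    have h2 : HasDerivAt (fun u : ℝ => (u, y)) ((1 : ℝ), (0 : ℝ)) x :=
      (hasDerivAt_id x).prodMk (hasDerivAt_const x y)
    exact h1.comp_hasDerivAt x h2
  have hz : ∀ x, fderiv ℝ f (x, 0) (1, 0) = 0 := by
    intro x
    have h1 := hder x 0
    have h2 : (fun u => f (u, (0 : ℝ))) = fun _ => 0 := by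
      funext u; exact ho.zero u le_rfl
    rw [h2] at h1
    exact h1.unique (hasDerivAt_const x 0)
  have hb : ∀ x y, |fderiv ℝ f (x, y) (1, 0)| ≤ C * |y| := by
    intro x y
    have h1 := hC.dist_le_mul (x, y) (x, 0)
    rw [hz x, Real.dist_eq, sub_zero, Prod.dist_eq] at h1
    simp only [dist_self, Real.dist_eq, sub_zero] at h1
    rwa [max_eq_right (abs_nonneg y)] at h1
  refine ⟨C + 1, by positivity, fun x y => ?_⟩
  have h1 : ‖f (x, y) - f (-x, y)‖ ≤ (C * |y|) * ‖x - -x‖ := by
    apply Convex.norm_image_sub_le_of_norm_hasDerivWithin_le (s := univ)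
      (f := fun u => f (u, y)) (f' := fun u => fderiv ℝ f (u, y) (1, 0))
    · intro u _
      exact (hder u y).hasDerivWithinAt
    · intro u _
      exact hb u y
    · exact convex_univ
    · exact mem_univ _
    · exact mem_univ _
  unfold ev
  rw [abs_div, abs_two, abs_mul]
  have h2 : ‖x - -x‖ = 2 * |x| := by
    rw [sub_neg_eq_add, ← two_mul, norm_mul, norm_eq_abs, norm_eq_abs, abs_two]
  rw [h2, norm_eq_abs] at h1
  have h3 : |om x y 0 - om (-x) y 0| ≤ C * |y| * (2 * |x|) := h1
  have h4 := mul_nonneg (abs_nonneg x) (abs_nonneg y)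
  rw [div_le_iff₀ (by norm_num)]
  nlinarith
end Pool.Agent.Helper64.Euler
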