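import Pool.Agent.Helper64.Euler.Init

set_option autoImplicit false

open Set Filter Topology Real MeasureTheory
open scoped ContDiff

namespace Pool.Agent.Helper64.Euler

variable {om : ℝ → ℝ → ℝ → ℝ}

/-- all the quantitative information with separate constants -/
lemma package (h : IsSolution om) (ho : OddY om) :
    ∃ R M K0 L B : ℝ, 0 < R ∧ 0 < M ∧ 0 < K0 ∧ 0 < L ∧ 0 ≤ B ∧
      (∀ t, 0 ≤ t → SuppIn om R t) ∧ (∀ x y t, 0 ≤ t → |om x y t| ≤ M) ∧
      (∀ x y t, 0 ≤ t → |ev om x y t| ≤ K0 * |x * y| * exp ((4 * M + 1) * t)) ∧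
      (∀ r t, 0 < r → 0 ≤ t → |br om R r t| ≤ B * (1 + t)) ∧
      (∀ x y t, 0 ≤ t → |om x y t| ≤ L * |y| * exp ((B + 2 * M + 1) * (1 + t) ^ 2)) := by
  obtain ⟨R, hR, hR0⟩ := exists_supp h le_rfl
  obtain ⟨M, hM, hM0⟩ := init_sup h
  obtain ⟨K0, hK, hK0⟩ := init_quad h ho
  obtain ⟨L, hL, hL0⟩ := init_lip h ho
  have hs : ∀ t, 0 ≤ t → SuppIn om R t := fun t ht => supp_global h ho hR hR0 ht
  have hsup : ∀ x y t, 0 ≤ t → |om x y t| ≤ M := fun x y t ht =>
    sup_bound (T := t) h ho hR (fun s hs' => hs s hs'.1) hM0 x y t ⟨ht, le_rfl⟩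
  have hev : ∀ x y t, 0 ≤ t → |ev om x y t| ≤ K0 * |x * y| * exp ((4 * M + 1) * t) :=
    fun x y t ht => ev_bound (T := t) h ho hR (fun s hs' => hs s hs'.1)
      (fun x y s hs' => hsup x y s hs'.1) hK hK0 x y t ⟨ht, le_rfl⟩
  set B := max (2 * M * (4 * M + 1)) (2 * M * log (1 + K0 * R ^ 2 / (2 * M))) with hB
  have hB0 : 0 ≤ B := le_trans (by positivity) (le_max_left _ _)
  have hbr : ∀ r t, 0 < r → 0 ≤ t → |br om R r t| ≤ B * (1 + t) := by
    intro r t hr ht
    have h1 := br_bound (om := om) (R := R) (K := K0) (m := 2 * M) (C := 4 * M + 1) (t := t)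
      (by positivity) hK hR (hs t ht) (fun ρ => wr_le (fun x y => hsup x y t ht) ρ)
      (fun ρ => wr_le' h ht hK.le (exp_pos _).le (fun x y => hev x y t ht) ρ)
      (by positivity) hr
    refine h1.trans ?_
    have e1 : 2 * M * (4 * M + 1) ≤ B := le_max_left _ _
    have e2 : 2 * M * log (1 + K0 * R ^ 2 / (2 * M)) ≤ B := le_max_right _ _
    nlinarith
  refine ⟨R, M, K0, L, B, hR, hM, hK, hL, hB0, hs, hsup, hev, hbr, fun x y t ht => ?_⟩
  exact om_bound (T := t) h ho hR (fun s hs' => hs s hs'.1) (fun x y s hs' => hsup x y s hs'.1) hL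
    (fun r s hr h0 _ => hbr r s hr h0) hL0 x y t ⟨ht, le_rfl⟩

lemma deriv_bound {f : ℝ → ℝ} {C a : ℝ} (hC : 0 ≤ C) (ha : f a = 0) (h : ∀ v, |f v| ≤ C * |v - a|) :
    |deriv f a| ≤ C := by
  have := norm_deriv_le_of_lip' (f := f) (x₀ := a) hC (Eventually.of_forall fun v => by
    rw [ha, sub_zero]; exact h v)
  simpa using this

lemma grad_axis {C x t : ℝ} (hC : 0 ≤ C) (hz : ∀ x, om x 0 t = 0)
    (h : ∀ v, |om x v t| ≤ C * |v|) : gradNorm om x 0 t ≤ C := by
  have h1 : deriv (fun u => om u 0 t) x = 0 := by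
    have : (fun u => om u 0 t) = fun _ => 0 := by funext u; exact hz u
    rw [this, deriv_const]
  have h2 : |deriv (fun v => om x v t) 0| ≤ C :=
    deriv_bound hC (hz x) (fun v => by simpa using h v)
  unfold gradNorm
  rw [h1]
  have : (0 : ℝ) ^ 2 + (deriv (fun v => om x v t) 0) ^ 2 = (deriv (fun v => om x v t) 0) ^ 2 := by
    ring
  rw [this, sqrt_sq_eq_abs]
  exact h2

lemma grad_axis' {C y t : ℝ} (hC : 0 ≤ C) (hz : ∀ y, om 0 y t = 0)
    (h : ∀ u, |om u y t| ≤ C * |u|) : gradNorm om 0 y t ≤ C := by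
  have h1 : deriv (fun v => om 0 v t) y = 0 := by
    have : (fun v => om 0 v t) = fun _ => 0 := by funext u; exact hz u
    rw [this, deriv_const]
  have h2 : |deriv (fun u => om u y t) 0| ≤ C :=
    deriv_bound hC (hz y) (fun v => by simpa using h v)
  unfold gradNorm
  rw [h1]
  have : (deriv (fun u => om u y t) 0) ^ 2 + (0 : ℝ) ^ 2 = (deriv (fun u => om u y t) 0) ^ 2 := by
    ring
  rw [this, sqrt_sq_eq_abs]
  exact h2

/-- `K exp (K (1 + t)²)` is eventually below every double exponential -/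
lemma eventually_lt_double (K c : ℝ) (hK : 0 < K) (hc : 0 < c) :
    ∃ T, ∀ t, T ≤ t → K * exp (K * (1 + t) ^ 2) < exp (c * exp (c * t)) := by
  -- `log K + K (1+t)² < c exp (c t)` eventually
  have h1 : Tendsto (fun t : ℝ => (1 + t) ^ 2 * exp (-(c * (1 + t)))) atTop (𝓝 0) := by
    have h2 : Tendsto (fun u : ℝ => u ^ 2 * exp (-(c * u))) atTop (𝓝 0) := by
      have h3 := tendsto_pow_mul_exp_neg_atTop_nhds_zero 2
      have h4 := h3.comp (tendsto_id.const_mul_atTop hc)
      have h5 := h4.const_mul ((c ^ 2)⁻¹)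
      rw [mul_zero] at h5
      refine h5.congr fun u => ?_
      simp only [Function.comp, id]
      field_simp
    exact h2.comp (tendsto_atTop_add_const_left _ 1 tendsto_id)
  have h6 : Tendsto (fun t : ℝ => exp (-(c * (1 + t)))) atTop (𝓝 0) := by
    apply tendsto_exp_neg_atTop_nhds_zero.comp
    exact (tendsto_atTop_add_const_left _ 1 tendsto_id).const_mul_atTop hc
  have h7 : Tendsto (fun t : ℝ => |log K| * exp (-(c * (1 + t))) +
      K * ((1 + t) ^ 2 * exp (-(c * (1 + t))))) atTop (𝓝 0) := by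
    have := (h6.const_mul |log K|).add (h1.const_mul K)
    simpa using this
  have h8 : 0 < c * exp (-c) := by positivity
  obtain ⟨T, hT⟩ := (h7.eventually (gt_mem_nhds h8)).exists_forall_of_atTop
  refine ⟨T, fun t ht => ?_⟩
  have h9 := hT t ht
  have hE : 0 < exp (c * (1 + t)) := exp_pos _
  have h10 : |log K| + K * (1 + t) ^ 2 < c * exp (c * t) := by
    have e1 := mul_lt_mul_of_pos_right h9 hE
    have e2 : exp (-(c * (1 + t))) * exp (c * (1 + t)) = 1 := by
      rw [← exp_add]; simp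
    have e3 : exp (-c) * exp (c * (1 + t)) = exp (c * t) := by
      rw [← exp_add]; ring_nf
    calc |log K| + K * (1 + t) ^ 2 = (|log K| * exp (-(c * (1 + t))) +
        K * ((1 + t) ^ 2 * exp (-(c * (1 + t))))) * exp (c * (1 + t)) := by
          rw [add_mul, mul_assoc, e2, mul_assoc, mul_assoc, e2]; ring
      _ < c * exp (-c) * exp (c * (1 + t)) := e1
      _ = c * exp (c * t) := by rw [mul_assoc, e3]
  calc K * exp (K * (1 + t) ^ 2) = exp (log K + K * (1 + t) ^ 2) := by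
        rw [exp_add, exp_log hK]
    _ < exp (c * exp (c * t)) := by
        apply exp_lt_exp.mpr
        have := le_abs_self (log K)
        linarith

/-- trajectories -/
lemma traj {K : ℝ} {ρ v : ℝ → ℝ} (hK : 0 < K) (hpos : ∀ t, 0 ≤ t → 0 < ρ t)
    (hc : ContinuousOn ρ (Ici 0)) (hd : ∀ t, 0 < t → HasDerivAt ρ (v t) t)
    (hv : ∀ t, 0 < t → |v t| ≤ K * (1 + t) * ρ t) :
    ∀ t, 0 ≤ t → ρ 0 * exp (-(K * (1 + t) ^ 2)) ≤ ρ t ∧ ρ t ≤ ρ 0 * exp (K * (1 + t) ^ 2) := by
  intro t ht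
  have hlog : ∀ s, 0 < s → HasDerivAt (fun s => log (ρ s)) (v s / ρ s) s := fun s hs =>
    (hd s hs).log (hpos s hs.le).ne'
  have hq : ∀ s : ℝ, HasDerivAt (fun s : ℝ => K * (1 + s) ^ 2) (K * (2 * (1 + s))) s := by
    intro s
    have e1 : HasDerivAt (fun s : ℝ => 1 + s) 1 s := by simpa using (hasDerivAt_id s).const_add 1
    have e2 := (e1.pow 2).const_mul K
    refine e2.congr_deriv ?_
    simp
  have hcl : ContinuousOn (fun s => log (ρ s)) (Icc 0 t) :=
    (hc.mono fun s hs => hs.1).log fun s hs => (hpos s hs.1).ne'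
  have hcq : Continuous (fun s : ℝ => K * (1 + s) ^ 2) := by fun_prop
  have hbd : ∀ s, 0 < s → |v s / ρ s| ≤ K * (1 + s) := fun s hs => by
    rw [abs_div, abs_of_pos (hpos s hs.le), div_le_iff₀ (hpos s hs.le)]
    exact hv s hs
  have m1 : MonotoneOn (fun s => log (ρ s) + K * (1 + s) ^ 2) (Icc 0 t) := by
    apply monotoneOn_of_deriv_nonneg (convex_Icc 0 t) (hcl.add hcq.continuousOn)
    · intro s hs
      rw [interior_Icc] at hs
      exact ((hlog s hs.1).add (hq s)).differentiableAt.differentiableWithinAt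
    · intro s hs
      rw [interior_Icc] at hs
      rw [((hlog s hs.1).add (hq s)).deriv]
      have := (abs_le.mp (hbd s hs.1)).1
      nlinarith [hs.1]
  have m2 : MonotoneOn (fun s => K * (1 + s) ^ 2 - log (ρ s)) (Icc 0 t) := by
    apply monotoneOn_of_deriv_nonneg (convex_Icc 0 t) (hcq.continuousOn.sub hcl)
    · intro s hs
      rw [interior_Icc] at hs
      exact ((hq s).sub (hlog s hs.1)).differentiableAt.differentiableWithinAt
    · intro s hs
      rw [interior_Icc] at hs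
      rw [((hq s).sub (hlog s hs.1)).deriv]
      have := (abs_le.mp (hbd s hs.1)).2
      nlinarith [hs.1]
  have k1 := m1 (left_mem_Icc.mpr ht) (right_mem_Icc.mpr ht) ht
  have k2 := m2 (left_mem_Icc.mpr ht) (right_mem_Icc.mpr ht) ht
  simp only at k1 k2
  have p0 := hpos 0 le_rfl
  have pt := hpos t ht
  constructor
  · calc ρ 0 * exp (-(K * (1 + t) ^ 2)) = exp (log (ρ 0) + -(K * (1 + t) ^ 2)) := by
          rw [exp_add, exp_log p0]
      _ ≤ exp (log (ρ t)) := exp_le_exp.mpr (by nlinarith)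
      _ = ρ t := exp_log pt
  · calc ρ t = exp (log (ρ t)) := (exp_log pt).symm
      _ ≤ exp (log (ρ 0) + K * (1 + t) ^ 2) := exp_le_exp.mpr (by nlinarith)
      _ = ρ 0 * exp (K * (1 + t) ^ 2) := by rw [exp_add, exp_log p0]

end Pool.Agent.Helper64.Euler
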