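import Pool.Agent.Helper64.Euler.Bounds

set_option autoImplicit false

open Set Filter Topology Real MeasureTheory
open scoped ContDiff

namespace Pool.Agent.Helper64.Euler

/-- the norm in the plane -/
noncomputable def nrm (p : ℝ × ℝ) : ℝ := √(p.1 ^ 2 + p.2 ^ 2)

lemma nrm_polar {r : ℝ} (hr : 0 ≤ r) (θ : ℝ) : nrm (r * cos θ, r * sin θ) = r := by
  unfold nrm
  simp only
  rw [show (r * cos θ) ^ 2 + (r * sin θ) ^ 2 = r ^ 2 * (sin θ ^ 2 + cos θ ^ 2) by ring,
    sin_sq_add_cos_sq, mul_one, sqrt_sq hr]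

lemma continuous_nrm : Continuous nrm := by unfold nrm; fun_prop

lemma supp_aux {f : ℝ → ℝ → ℝ → ℝ} {b w : ℝ → ℝ → ℝ} {T R ρ1 M D : ℝ} (hf : Tr f b w T)
    (hR : 0 < R) (hRρ : R < ρ1) (hM : 0 < M) (hfM : ∀ x y, f x y 0 ≤ M)
    (hy : ∀ x t, 0 ≤ t → t ≤ T → f x 0 t = 0)
    (hs : ∀ x y t, 0 ≤ t → t ≤ T → x ^ 2 + y ^ 2 = ρ1 ^ 2 → f x y t = 0) (h0 : SuppIn f R 0)
    (hb : ∀ r t, 0 < r → r ≤ ρ1 → 0 ≤ t → t ≤ T → r * |b r t| ≤ D * (ρ1 - r)) :
    ∀ p ∈ HD ρ1, ∀ t ∈ Icc 0 T, (ρ1 - nrm p) * exp (2 * D * t) < ρ1 - R → f p.1 p.2 t ≤ 0 := by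
  intro p hp t ht hq
  set d := ρ1 - R with hd
  have hdpos : 0 < d := by linarith
  have key : ∀ l > 0, f p.1 p.2 t ≤
      M * exp (l * ((ρ1 - nrm p) * exp (2 * D * t) - d)) + l⁻¹ * t := by
    intro l hl
    have hli : 0 < l⁻¹ := inv_pos.mpr hl
    refine barrier hf (isCompact_HD ρ1) (zero_notMem_HD ρ1)
      (G := fun p t => M * exp (l * ((ρ1 - nrm p) * exp (2 * D * t) - d)) + l⁻¹ * t)
      ?_ ?_ ?_ ?_ p hp t ht
    · have := continuous_nrm
      fun_prop
    · intro q hq'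
      rw [mul_zero, exp_zero, mul_one, mul_zero, add_zero]
      rcases le_or_gt (nrm q) R with hle | hgt
      · have h1 : 1 ≤ exp (l * (ρ1 - nrm q - d)) := one_le_exp (by
          have : 0 ≤ ρ1 - nrm q - d := by rw [hd]; linarith
          positivity)
        have h2 := hfM q.1 q.2
        nlinarith
      · have h3 : f q.1 q.2 0 = 0 := by
          apply h0
          have h4 : nrm q ^ 2 = q.1 ^ 2 + q.2 ^ 2 := by
            unfold nrm; rw [sq_sqrt (by positivity)]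
          rw [← h4]
          nlinarith
        rw [h3]; positivity
    · intro q hq' hqi s hs'
      have h1 : f q.1 q.2 s = 0 := by
        rcases HD_boundary hq' hqi with h | h
        · rw [h]; exact hy _ _ hs'.1 hs'.2
        · exact hs _ _ _ hs'.1 hs'.2 h
      rw [h1]
      have := hs'.1
      positivity
    · intro r θ s hr hi hs1 hs2 _
      have hrρ : r ≤ ρ1 := by
        have h1 := interior_subset hi
        have h2 : (r * cos θ) ^ 2 + (r * sin θ) ^ 2 ≤ ρ1 ^ 2 := h1.2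
        rw [show (r * cos θ) ^ 2 + (r * sin θ) ^ 2 = r ^ 2 * (sin θ ^ 2 + cos θ ^ 2) by ring,
          sin_sq_add_cos_sq, mul_one] at h2
        exact le_of_sq_le_sq h2 (by linarith) 
      set E := exp (2 * D * s) with hE
      have hEpos : 0 < E := exp_pos _
      set Q := exp (l * ((ρ1 - r) * E - d)) with hQ
      have hQpos : 0 < Q := exp_pos _
      refine ⟨M * (Q * (l * (-1 * E))), 0,
        M * (Q * (l * ((ρ1 - r) * (E * (2 * D))))) + l⁻¹, ?_, ?_, ?_, ?_⟩
      · have e1 : HasDerivAt (fun ρ : ℝ => (ρ1 - ρ) * E - d) (-1 * E) r := by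
          have := (((hasDerivAt_id r).const_sub ρ1).mul_const E).sub_const d
          simpa using this
        have e2 := (((e1.const_mul l).exp).const_mul M).add_const (l⁻¹ * s)
        refine e2.congr_of_eventuallyEq ?_
        filter_upwards [Ioi_mem_nhds hr] with ρ hρ
        rw [nrm_polar (le_of_lt hρ)]
      · refine (hasDerivAt_const θ (M * exp (l * ((ρ1 - r) * E - d)) + l⁻¹ * s)).congr_of_eventuallyEq ?_
        filter_upwards with φ
        rw [nrm_polar hr.le]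
      · have e0 : HasDerivAt (fun s : ℝ => 2 * D * s) (2 * D) s := by
          simpa using (hasDerivAt_id s).const_mul (2 * D)
        have e1 : HasDerivAt (fun s : ℝ => (ρ1 - r) * exp (2 * D * s) - d)
            ((ρ1 - r) * (E * (2 * D))) s := (e0.exp.const_mul (ρ1 - r)).sub_const d
        have e2 : HasDerivAt (fun s : ℝ => l⁻¹ * s) (l⁻¹) s := by
          simpa using (hasDerivAt_id s).const_mul (l⁻¹)
        have e3 := (((e1.const_mul l).exp).const_mul M).add e2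
        refine e3.congr_of_eventuallyEq ?_
        filter_upwards with u
        simp only [nrm_polar hr.le, Pi.add_apply]
      · have h1 := hb r s hr hrρ hs1.le hs2
        have h2 : 2 * r * cos (2 * θ) * b r s ≤ 2 * (D * (ρ1 - r)) := by
          have h3 := le_abs_self (2 * r * cos (2 * θ) * b r s)
          have h4 : |2 * r * cos (2 * θ) * b r s| ≤ 2 * (r * |b r s|) := by
            rw [abs_mul, abs_mul, abs_mul, abs_two, abs_of_pos hr]
            have := abs_cos_le_one (2 * θ)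
            have h5 : 0 ≤ r * |b r s| := by positivity
            nlinarith
          linarith
        have hpos : 0 < M * (Q * (l * E)) := by positivity
        have h3 : -(2 * r * cos (2 * θ) * b r s) * (M * (Q * (l * (-1 * E)))) =
            (2 * r * cos (2 * θ) * b r s) * (M * (Q * (l * E))) := by ring
        have h4 : M * (Q * (l * ((ρ1 - r) * (E * (2 * D))))) =
            (2 * (D * (ρ1 - r))) * (M * (Q * (l * E))) := by ring
        rw [h3, h4, mul_zero, add_zero]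
        have := mul_le_mul_of_nonneg_right h2 hpos.le
        linarith
  have hneg : (ρ1 - nrm p) * exp (2 * D * t) - d < 0 := by linarith
  have h1 : Tendsto (fun l : ℝ => M * exp (l * ((ρ1 - nrm p) * exp (2 * D * t) - d)) + l⁻¹ * t)
      atTop (𝓝 (M * 0 + 0 * t)) := by
    apply Tendsto.add
    · apply Tendsto.const_mul
      apply tendsto_exp_atBot.comp
      exact Tendsto.atTop_mul_const_of_neg hneg tendsto_id
    · exact tendsto_inv_atTop_zero.mul_const t
  rw [mul_zero, zero_mul, add_zero] at h1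
  refine ge_of_tendsto h1 ?_
  filter_upwards [eventually_gt_atTop 0] with l hl
  exact key l hl

/-- speed of the boundary of the support -/
lemma supp_step {f : ℝ → ℝ → ℝ → ℝ} {b w : ℝ → ℝ → ℝ} {T R ρ1 M D : ℝ} (hf : Tr f b w T)
    (hR : 0 < R) (hRρ : R < ρ1) (hM : 0 < M) (hD : 0 ≤ D) (hfM : ∀ x y, |f x y 0| ≤ M)
    (hodd : ∀ x y t, 0 ≤ t → t ≤ T → f x (-y) t = - f x y t)
    (hs : ∀ t ∈ Icc 0 T, SuppIn f ρ1 t) (h0 : SuppIn f R 0)
    (hb : ∀ r t, 0 < r → r ≤ ρ1 → 0 ≤ t → t ≤ T → r * |b r t| ≤ D * (ρ1 - r)) :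
    ∀ t ∈ Icc 0 T, SuppIn f (ρ1 - (ρ1 - R) * exp (-(2 * D * T))) t := by
  have hy : ∀ x t, 0 ≤ t → t ≤ T → f x 0 t = 0 := by
    intro x t h1 h2
    have := hodd x 0 t h1 h2
    rw [neg_zero] at this
    linarith
  have hc : ∀ x y t, 0 ≤ t → t ≤ T → x ^ 2 + y ^ 2 = ρ1 ^ 2 → f x y t = 0 := by
    intro x y t h1 h2 h3
    exact (hs t ⟨h1, h2⟩).circle (hf.diff t h1 h2).continuous (by linarith) h3
  have k1 := supp_aux hf hR hRρ hM (fun x y => (le_abs_self _).trans (hfM x y)) hy hc h0 hb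
  have k2 := supp_aux hf.neg hR hRρ hM (fun x y => (neg_le_abs _).trans (hfM x y))
    (fun x t h1 h2 => by rw [hy x t h1 h2, neg_zero])
    (fun x y t h1 h2 h3 => by rw [hc x y t h1 h2 h3, neg_zero])
    (fun x y h => by rw [h0 x y h, neg_zero]) hb
  set ρ2 := ρ1 - (ρ1 - R) * exp (-(2 * D * T)) with hρ2
  intro t ht
  have hT : 0 ≤ T := ht.1.trans ht.2
  have hρ2R : R ≤ ρ2 := by
    have : exp (-(2 * D * T)) ≤ 1 := exp_le_one_iff.mpr (by
      have : 0 ≤ 2 * D * T := by positivity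
      linarith)
    rw [hρ2]; nlinarith
  have hup : ∀ x y, 0 ≤ y → ρ2 ^ 2 < x ^ 2 + y ^ 2 → f x y t = 0 := by
    intro x y hy0 hxy
    rcases le_or_gt (x ^ 2 + y ^ 2) (ρ1 ^ 2) with hle | hgt
    · have hn : ρ2 < nrm (x, y) := by
        unfold nrm
        exact lt_sqrt_of_sq_lt hxy
      have hq : (ρ1 - nrm (x, y)) * exp (2 * D * t) < ρ1 - R := by
        have e1 : (ρ1 - nrm (x, y)) < (ρ1 - R) * exp (-(2 * D * T)) := by
          rw [hρ2] at hn; linarith
        have e2 : exp (2 * D * t) ≤ exp (2 * D * T) := exp_le_exp.mpr (by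
          have := ht.2
          have h2D : 0 ≤ 2 * D := by positivity
          exact mul_le_mul_of_nonneg_left this h2D)
        have e3 : exp (-(2 * D * T)) * exp (2 * D * T) = 1 := by
          rw [← exp_add]; simp
        have e4 : 0 ≤ ρ1 - nrm (x, y) := by
          have : nrm (x, y) ≤ ρ1 := by
            unfold nrm
            exact sqrt_le_iff.mpr ⟨by linarith, hle⟩
          linarith
        calc (ρ1 - nrm (x, y)) * exp (2 * D * t) ≤ (ρ1 - nrm (x, y)) * exp (2 * D * T) :=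
              mul_le_mul_of_nonneg_left e2 e4
          _ < (ρ1 - R) * exp (-(2 * D * T)) * exp (2 * D * T) :=
              mul_lt_mul_of_pos_right e1 (exp_pos _)
          _ = ρ1 - R := by rw [mul_assoc, e3, mul_one]
      have e1 := k1 (x, y) ⟨hy0, hle⟩ t ht hq
      have e2 := k2 (x, y) ⟨hy0, hle⟩ t ht hq
      simp only at e1 e2
      linarith
    · exact hs t ht x y hgt
  intro x y hxy
  rcases le_total 0 y with hy0 | hy0
  · exact hup x y hy0 hxy
  · have := hup x (-y) (by linarith) (by rw [neg_sq]; exact hxy)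
    rw [hodd x y t ht.1 ht.2] at this
    linarith

/-- if the support stays in some disc on `[0, T]` then the initial disc is never left -/
lemma supp_keep {f : ℝ → ℝ → ℝ → ℝ} {b w : ℝ → ℝ → ℝ → ℝ} {T R R' M D : ℝ}
    (hf : ∀ ρ > 0, (∀ t ∈ Icc 0 T, SuppIn f ρ t) → Tr f (b ρ) (w ρ) T)
    (hR : 0 < R) (hM : 0 < M) (hD : 0 ≤ D) (hfM : ∀ x y, |f x y 0| ≤ M)
    (hodd : ∀ x y t, 0 ≤ t → t ≤ T → f x (-y) t = - f x y t)
    (hs : ∀ t ∈ Icc 0 T, SuppIn f R' t) (h0 : SuppIn f R 0)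
    (hb : ∀ ρ r t, 0 < r → r ≤ ρ → 0 ≤ t → t ≤ T → r * |b ρ r t| ≤ D * (ρ - r)) :
    ∀ t ∈ Icc 0 T, SuppIn f R t := by
  by_contra hcon
  -- the set of admissible radii
  set S : Set ℝ := {ρ | R ≤ ρ ∧ ∀ t ∈ Icc 0 T, SuppIn f ρ t} with hS
  have hmono : ∀ ρ ρ', 0 ≤ ρ → ρ ≤ ρ' → (∀ t ∈ Icc 0 T, SuppIn f ρ t) →
      ∀ t ∈ Icc 0 T, SuppIn f ρ' t := by
    intro ρ ρ' h0' h1 h2 t ht x y hxy
    exact h2 t ht x y (lt_of_le_of_lt (by nlinarith) hxy)
  have hne : S.Nonempty := by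
    refine ⟨max R |R'|, le_max_left _ _, ?_⟩
    apply hmono |R'| _ (abs_nonneg _) (le_max_right _ _)
    intro t ht x y hxy
    rw [sq_abs] at hxy
    exact hs t ht x y hxy
  have hbdd : BddBelow S := ⟨R, fun ρ hρ => hρ.1⟩
  set ρ1 := sInf S with hρ1
  have hRρ : R ≤ ρ1 := le_csInf hne fun ρ hρ => hρ.1
  have hmem : ∀ t ∈ Icc 0 T, SuppIn f ρ1 t := by
    intro t ht x y hxy
    have hcont : ContinuousAt (fun ρ : ℝ => ρ ^ 2) ρ1 := by fun_prop
    obtain ⟨ε, hε, hε2⟩ : ∃ ε > 0, ∀ ρ, |ρ - ρ1| < ε → ρ ^ 2 < x ^ 2 + y ^ 2 := by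
      have h1 : ∀ᶠ ρ in 𝓝 ρ1, ρ ^ 2 < x ^ 2 + y ^ 2 := hcont.eventually_lt_const hxy
      obtain ⟨ε, hε, h2⟩ := Metric.eventually_nhds_iff.mp h1
      exact ⟨ε, hε, fun ρ hρ => h2 (by rwa [Real.dist_eq])⟩
    obtain ⟨ρ, hρS, hρlt⟩ := exists_lt_of_csInf_lt hne (show sInf S < ρ1 + ε by linarith)
    have h3 : ρ1 ≤ ρ := csInf_le hbdd hρS
    exact hρS.2 t ht x y (hε2 ρ (by rw [abs_of_nonneg (by linarith)]; linarith))
  rcases hRρ.lt_or_eq with hlt | heq
  · have h1 := supp_step (hf ρ1 (by linarith) hmem) hR hlt hM hD hfM hodd hmem h0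
      (fun r t a1 a2 a3 a4 => hb ρ1 r t a1 a2 a3 a4)
    have hpos : 0 < (ρ1 - R) * exp (-(2 * D * T)) := mul_pos (by linarith) (exp_pos _)
    rcases lt_or_ge T 0 with hT | hT
    · exact hcon fun t ht => absurd (ht.1.trans ht.2) (not_le.mpr hT)
    have h2 : ρ1 - (ρ1 - R) * exp (-(2 * D * T)) ∈ S := by
      refine ⟨?_, h1⟩
      have : exp (-(2 * D * T)) ≤ 1 := exp_le_one_iff.mpr (by
        have : 0 ≤ 2 * D * T := by positivity
        linarith)
      nlinarith
    have := csInf_le hbdd h2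
    linarith
  · exact hcon (by rw [heq]; exact hmem)

end Pool.Agent.Helper64.Euler
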