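import Pool.Agent.Helper64.Euler.Support

set_option autoImplicit false

open Set Filter Topology Real MeasureTheory
open scoped ContDiff

namespace Pool.Agent.Helper64.Euler

variable {om : ℝ → ℝ → ℝ → ℝ}

lemma br_lip {ρ1 r t m : ℝ} (h1 : ∀ ρ, |wr om ρ t| ≤ m) (hr : 0 < r) (hle : r ≤ ρ1) :
    r * |br om ρ1 r t| ≤ m * (ρ1 - r) := by
  have hm : 0 ≤ m := (abs_nonneg _).trans (h1 0)
  have h2 : ‖∫ ρ in r..ρ1, wr om ρ t / ρ‖ ≤ (m / r) * |ρ1 - r| := by
    apply intervalIntegral.norm_integral_le_of_norm_le_const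
    intro ρ hρ
    rw [uIoc_of_le hle] at hρ
    rw [norm_div, norm_eq_abs, norm_eq_abs, abs_of_pos (hr.trans hρ.1)]
    exact div_le_div₀ hm (h1 ρ) hr hρ.1.le
  unfold br
  rw [norm_eq_abs, abs_of_nonneg (by linarith : 0 ≤ ρ1 - r)] at h2
  calc r * |∫ ρ in r..ρ1, wr om ρ t / ρ| ≤ r * ((m / r) * (ρ1 - r)) :=
        mul_le_mul_of_nonneg_left h2 hr.le
    _ = m * (ρ1 - r) := by field_simp

lemma exists_M (h : IsSolution om) {R' a c : ℝ} (ha : 0 ≤ a)
    (hs : ∀ t ∈ Icc a c, SuppIn om R' t) : ∃ M > 0, ∀ x y, ∀ t ∈ Icc a c, |om x y t| ≤ M := by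
  have hK : IsCompact ({p : ℝ × ℝ | p.1 ^ 2 + p.2 ^ 2 ≤ R' ^ 2} ×ˢ Icc a c) := by
    apply IsCompact.prod _ isCompact_Icc
    exact Metric.isCompact_of_isClosed_isBounded (isClosed_aux R') (bdd_aux R')
  have hcont : ContinuousOn (fun p : (ℝ × ℝ) × ℝ => om p.1.1 p.1.2 p.2)
      ({p : ℝ × ℝ | p.1 ^ 2 + p.2 ^ 2 ≤ R' ^ 2} ×ˢ Icc a c) :=
    h.cont.mono fun p hp => ⟨mem_univ _, ha.trans hp.2.1⟩
  obtain ⟨C, hC⟩ := hK.exists_bound_of_continuousOn hcont
  refine ⟨max C 1, by positivity, fun x y t ht => ?_⟩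
  rcases le_or_gt (x ^ 2 + y ^ 2) (R' ^ 2) with hle | hgt
  · exact (hC ((x, y), t) ⟨hle, ht⟩).trans (le_max_left _ _)
  · rw [hs t ht x y hgt, abs_zero]; positivity

lemma win_fwd (h : IsSolution om) (ho : OddY om) {R R' a c : ℝ} (ha : 0 ≤ a) (hR : 0 < R)
    (hs : ∀ t ∈ Icc a c, SuppIn om R' t) (h0 : SuppIn om R a) :
    ∀ t ∈ Icc a c, SuppIn om R t := by
  intro t ht
  obtain ⟨M, hM, hMb⟩ := exists_M h ha hs
  have hac : a ≤ c := ht.1.trans ht.2
  have key := supp_keep (f := fun x y t => om x y (a + t)) (b := fun ρ r t => br om ρ r (a + t))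
    (w := fun _ r t => wr om r (a + t)) (T := c - a) (R := R) (R' := R') (M := M) (D := 2 * M)
    ?_ hR hM (by positivity) ?_ ?_ ?_ ?_ ?_ (t - a) ⟨by linarith [ht.1], by linarith [ht.2]⟩
  · intro x y hxy
    have := key x y hxy
    simpa using this
  · intro ρ hρ hsρ
    refine ⟨?_, ?_, ?_⟩
    · have h1 : ContinuousOn (fun p : (ℝ × ℝ) × ℝ => ((p.1.1, p.1.2), a + p.2))
          (univ ×ˢ Icc 0 (c - a)) := by fun_prop
      exact h.cont.comp h1 (fun p hp => ⟨mem_univ _, by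
        have := hp.2.1
        simp only [mem_Ici]
        linarith⟩)
    · intro t h1 _
      exact h.diffSlice (by linarith)
    · intro r θ t hr ht1 ht2
      have hpos : 0 < a + t := by linarith
      have e1 : SuppIn om ρ (a + t) := hsρ t ⟨ht1.le, ht2⟩
      have e2 := (h.diffTime (r * cos θ) (r * sin θ) hpos).hasDerivAt
      have e3 : deriv (fun s => om (r * cos θ) (r * sin θ) s) (a + t) = _ :=
        eqn' h ho hρ e1 hpos hr θ
      rw [e3] at e2
      have e4 : HasDerivAt (fun s : ℝ => a + s) 1 t := by simpa using (hasDerivAt_id t).const_add a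
      have e5 := HasDerivAt.comp (h₂ := fun s => om (r * cos θ) (r * sin θ) s) t e2 e4
      rw [mul_one] at e5
      exact e5
  · intro x y
    have := hMb x y a ⟨le_rfl, hac⟩
    simpa using this
  · intro x y t h1 _
    exact ho x y (a + t) (by linarith)
  · intro t ht'
    exact hs (a + t) ⟨by linarith [ht'.1], by linarith [ht'.2]⟩
  · intro x y hxy
    have := h0 x y hxy
    simpa using this
  · intro ρ r t hr hrρ h1 h2
    exact br_lip (fun ρ => wr_le (fun x y => hMb x y (a + t) ⟨by linarith, by linarith⟩) ρ) hr hrρ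

lemma win_bwd (h : IsSolution om) (ho : OddY om) {R R' a c : ℝ} (ha : 0 < a) (hR : 0 < R)
    (hs : ∀ t ∈ Icc a c, SuppIn om R' t) (h0 : SuppIn om R c) :
    ∀ t ∈ Icc a c, SuppIn om R t := by
  intro t ht
  obtain ⟨M, hM, hMb⟩ := exists_M h ha.le hs
  have hac : a ≤ c := ht.1.trans ht.2
  have key := supp_keep (f := fun x y t => om x y (c - t)) (b := fun ρ r t => - br om ρ r (c - t))
    (w := fun _ r t => - wr om r (c - t)) (T := c - a) (R := R) (R' := R') (M := M) (D := 2 * M)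
    ?_ hR hM (by positivity) ?_ ?_ ?_ ?_ ?_ (c - t) ⟨by linarith [ht.2], by linarith [ht.1]⟩
  · intro x y hxy
    have := key x y hxy
    simpa using this
  · intro ρ hρ hsρ
    refine ⟨?_, ?_, ?_⟩
    · have h1 : ContinuousOn (fun p : (ℝ × ℝ) × ℝ => ((p.1.1, p.1.2), c - p.2))
          (univ ×ˢ Icc 0 (c - a)) := by fun_prop
      exact h.cont.comp h1 (fun p hp => ⟨mem_univ _, by
        have := hp.2.2
        simp only [mem_Ici]
        linarith⟩)
    · intro t _ h2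
      exact h.diffSlice (by linarith)
    · intro r θ t hr ht1 ht2
      have hpos : 0 < c - t := by linarith
      have e1 : SuppIn om ρ (c - t) := hsρ t ⟨ht1.le, ht2⟩
      have e2 := (h.diffTime (r * cos θ) (r * sin θ) hpos).hasDerivAt
      have e3 : deriv (fun s => om (r * cos θ) (r * sin θ) s) (c - t) = _ :=
        eqn' h ho hρ e1 hpos hr θ
      rw [e3] at e2
      have e4 : HasDerivAt (fun s : ℝ => c - s) (-1) t := by
        simpa using (hasDerivAt_id t).const_sub c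
      have e5 := HasDerivAt.comp (h₂ := fun s => om (r * cos θ) (r * sin θ) s) t e2 e4
      refine e5.congr_deriv ?_
      unfold pol
      ring
  · intro x y
    have := hMb x y c ⟨hac, le_rfl⟩
    simpa using this
  · intro x y t _ h2
    exact ho x y (c - t) (by linarith)
  · intro t ht'
    exact hs (c - t) ⟨by linarith [ht'.2], by linarith [ht'.1]⟩
  · intro x y hxy
    have := h0 x y hxy
    simpa using this
  · intro ρ r t hr hrρ h1 h2
    rw [abs_neg]
    exact br_lip (fun ρ => wr_le (fun x y => hMb x y (c - t) ⟨by linarith, by linarith⟩) ρ) hr hrρ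

lemma suppIn_mono {R R' t : ℝ} (h0 : 0 ≤ R) (hRR : R ≤ R') (h : SuppIn om R t) :
    SuppIn om R' t := fun x y hxy => h x y (lt_of_le_of_lt (by nlinarith) hxy)

lemma exists_supp (h : IsSolution om) {t : ℝ} (ht : 0 ≤ t) : ∃ R > 0, SuppIn om R t := by
  obtain ⟨C, hC⟩ := (h.compact t ht).isCompact.isBounded.exists_norm_le
  refine ⟨2 * (|C| + 1), by positivity, fun x y hxy => ?_⟩
  by_contra hne
  have h1 : (x, y) ∈ tsupport (fun p : ℝ × ℝ => om p.1 p.2 t) :=
    subset_tsupport _ (by simpa using hne)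
  have h2 := hC _ h1
  rw [Prod.norm_def, max_le_iff] at h2
  have h3 : |x| ≤ |C| := h2.1.trans (le_abs_self C)
  have h4 : |y| ≤ |C| := h2.2.trans (le_abs_self C)
  have h5 : x ^ 2 ≤ |C| ^ 2 := by rw [← sq_abs x]; gcongr
  have h6 : y ^ 2 ≤ |C| ^ 2 := by rw [← sq_abs y]; gcongr
  nlinarith [abs_nonneg C]

/-- closedness in time -/
lemma suppIn_closed (h : IsSolution om) {R : ℝ} {s : ℕ → ℝ} {t : ℝ} (hs0 : ∀ n, 0 ≤ s n)
    (ht : 0 ≤ t) (hlim : Tendsto s atTop (𝓝 t)) (hs : ∀ n, SuppIn om R (s n)) :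
    SuppIn om R t := by
  intro x y hxy
  have h1 : ContinuousWithinAt (fun u => om x y u) (Ici 0) t := by
    have h2 := h.cont ((x, y), t) ⟨mem_univ _, ht⟩
    have h3 : ContinuousWithinAt (fun u : ℝ => ((x, y), u)) (Ici 0) t := by fun_prop
    exact ContinuousWithinAt.comp (g := fun p : (ℝ × ℝ) × ℝ => om p.1.1 p.1.2 p.2) h2 h3
      (fun u hu => ⟨mem_univ _, hu⟩)
  have h4 : Tendsto (fun n => om x y (s n)) atTop (𝓝 (om x y t)) :=
    h1.tendsto.comp (tendsto_nhdsWithin_iff.mpr ⟨hlim, Eventually.of_forall hs0⟩)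
  have h5 : (fun n => om x y (s n)) = fun _ => 0 := by
    funext n; exact hs n x y hxy
  rw [h5] at h4
  exact tendsto_nhds_unique h4 tendsto_const_nhds |>.symm ▸ rfl

/-- times near which the supports are not uniformly bounded -/
def Bad (om : ℝ → ℝ → ℝ → ℝ) : Set ℝ :=
  {t | 0 ≤ t ∧ ∀ n : ℕ, ∀ δ > 0, ∃ s, 0 ≤ s ∧ |s - t| < δ ∧ ¬ SuppIn om n s}

lemma isClosed_Bad (om : ℝ → ℝ → ℝ → ℝ) : IsClosed (Bad om) := by
  rw [← isOpen_compl_iff, Metric.isOpen_iff]
  intro t ht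
  rcases lt_or_ge t 0 with hneg | hnn
  · refine ⟨-t, by linarith, fun u hu hb => ?_⟩
    rw [Metric.mem_ball, Real.dist_eq] at hu
    have := hb.1
    have := (abs_lt.mp hu).2
    linarith
  · have h1 : ¬ ∀ n : ℕ, ∀ δ > 0, ∃ s, 0 ≤ s ∧ |s - t| < δ ∧ ¬ SuppIn om n s := fun h => ht ⟨hnn, h⟩
    push Not at h1
    obtain ⟨n, δ, hδ, h2⟩ := h1
    refine ⟨δ / 2, by linarith, fun u hu hb => ?_⟩
    rw [Metric.mem_ball, Real.dist_eq] at hu
    obtain ⟨s, hs0, hs1, hs2⟩ := hb.2 n (δ / 2) (by linarith)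
    apply hs2
    apply h2 s hs0
    calc |s - t| = |(s - u) + (u - t)| := by ring_nf
      _ ≤ |s - u| + |u - t| := abs_add_le _ _
      _ < δ := by linarith

/-- uniform bound on a compact interval of good times -/
lemma unif_of_good {a c : ℝ} (ha : 0 ≤ a) (hgood : ∀ t ∈ Icc a c, t ∉ Bad om) :
    ∃ R' : ℝ, 0 ≤ R' ∧ ∀ t ∈ Icc a c, SuppIn om R' t := by
  have h1 : ∀ t ∈ Icc a c, ∃ n : ℕ, ∃ δ > 0, ∀ s, 0 ≤ s → |s - t| < δ → SuppIn om n s := by
    intro t ht
    have := hgood t ht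
    have h2 : ¬ ∀ n : ℕ, ∀ δ > 0, ∃ s, 0 ≤ s ∧ |s - t| < δ ∧ ¬ SuppIn om n s :=
      fun h => this ⟨ha.trans ht.1, h⟩
    push Not at h2
    obtain ⟨n, δ, hδ, h3⟩ := h2
    exact ⟨n, δ, hδ, h3⟩
  choose! n δ hδ hn using h1
  obtain ⟨F, hF, hcov⟩ := isCompact_Icc.elim_nhds_subcover (s := Icc a c)
    (fun t => Metric.ball t (δ t)) (fun t ht => Metric.ball_mem_nhds t (hδ t ht))
  refine ⟨((∑ t ∈ F, n t : ℕ) : ℝ), by positivity, fun t ht => ?_⟩
  obtain ⟨u, hu, htu⟩ := mem_iUnion₂.mp (hcov ht)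
  rw [Metric.mem_ball, Real.dist_eq] at htu
  have h3 := hn u (hF u hu) t (ha.trans ht.1) htu
  apply suppIn_mono (by positivity) _ h3
  exact_mod_cast Finset.single_le_sum (f := n) (fun _ _ => Nat.zero_le _) hu

end Pool.Agent.Helper64.Euler
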